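import Mathlib

/-!
Definitions: circuits, permutation graphs, the weight `w`, faithful circuit covers, cyclic
numberings.
-/

namespace Pool.Agent.H5.Goddyn

open SimpleGraph

variable {V : Type*}

/-- A *circuit* of `G`: a connected 2-regular subgraph. -/
def IsCircuit {G : SimpleGraph V} (C : G.Subgraph) : Prop :=
  C.Connected ∧ ∀ v ∈ C.verts, (C.neighborSet v).ncard = 2

/-- `G` is a permutation graph with perfect matching `M`: `G` is cubic, `M` is a perfect matching
of `G`, and `G - M` is the union of two vertex-disjoint chordless circuits `C₁`, `C₂`. -/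
structure IsPermutationGraph (G : SimpleGraph V) (M C₁ C₂ : G.Subgraph) : Prop where
  cubic : ∀ v, (G.neighborSet v).ncard = 3
  perfect : M.IsPerfectMatching
  circuit₁ : IsCircuit C₁
  circuit₂ : IsCircuit C₂
  disjoint : Disjoint C₁.verts C₂.verts
  union : ∀ u v, (G.Adj u v ∧ ¬ M.Adj u v) ↔ (C₁.Adj u v ∨ C₂.Adj u v)
  chordless₁ : C₁.IsInduced
  chordless₂ : C₂.IsInduced

open Classical in
/-- The weight `w`: value `2` on the edges of `M` and `1` on all other edges. -/
noncomputable def wt {G : SimpleGraph V} (M : G.Subgraph) (e : Sym2 V) : ℕ :=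
  if e ∈ M.edgeSet then 2 else 1

/-- `(G, w)` has a *faithful circuit cover*: a finite family of circuits of `G` such that every
edge `e` of `G` lies in exactly `w e` members of the family. -/
def HasFaithfulCircuitCover (G : SimpleGraph V) (w : Sym2 V → ℕ) : Prop :=
  ∃ (k : ℕ) (𝒞 : Fin k → G.Subgraph), (∀ i, IsCircuit (𝒞 i)) ∧
    ∀ e ∈ G.edgeSet, {i | e ∈ (𝒞 i).edgeSet}.ncard = w e

/-- A cyclic numbering of the vertices of a circuit `C` with `n` vertices. -/
def IsCyclicNumbering {G : SimpleGraph V} (C : G.Subgraph) {n : ℕ} [NeZero n] (x : Fin n → V) :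
    Prop :=
  Function.Injective x ∧ Set.range x = C.verts ∧ ∀ i, C.Adj (x i) (x (i + 1))

end Pool.Agent.H5.Goddyn
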