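import Mathlib
import Pool.Agent.H5.Goddyn.Defs

set_option linter.unusedSimpArgs false

/-!
Circuits as cyclic sequences, and the passage from colour differences to a faithful circuit cover.
-/

namespace Pool.Agent.H5.Goddyn

open SimpleGraph

variable {V : Type*}

/-! ### Enumerating a circuit -/

lemma exists_enum [Finite V] {G : SimpleGraph V} {C : G.Subgraph} (hC : IsCircuit C) :
    ∃ (n : ℕ) (c : ℕ → V), 3 ≤ n ∧ (∀ i, c (i + n) = c i) ∧ Set.InjOn c {i | i < n} ∧
      (∀ v, v ∈ C.verts ↔ ∃ i < n, c i = v) ∧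
      ∀ i t, C.Adj (c (i + 1)) t ↔ t = c i ∨ t = c (i + 2) := by
  classical
  obtain ⟨hconn, hdeg⟩ := hC
  set H := C.spanningCoe with hH
  have hcyc : H.IsCycles := by
    intro v hv
    obtain ⟨w, hw⟩ := hv
    have hvC : v ∈ C.verts := C.edge_vert hw
    exact hdeg v hvC
  obtain ⟨v₀, hv₀⟩ := hconn.nonempty
  have hn : (H.neighborSet v₀).Nonempty := by
    have := hdeg v₀ hv₀
    apply Set.nonempty_of_ncard_ne_zero
    show (C.neighborSet v₀).ncard ≠ 0
    omega
  obtain ⟨p, hp, hsupp⟩ := hcyc.exists_cycle_toSubgraph_verts_eq_connectedComponentSupp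
    (c := H.connectedComponentMk v₀) rfl hn
  have hverts : ∀ v, v ∈ C.verts ↔ v ∈ p.support := by
    intro v
    rw [← p.mem_verts_toSubgraph, hsupp, ConnectedComponent.mem_supp_iff, ConnectedComponent.eq]
    constructor
    · intro hv
      have := hconn.coe.preconnected ⟨v, hv⟩ ⟨v₀, hv₀⟩
      obtain ⟨q⟩ := this
      exact ⟨q.map ⟨fun x => x.1, fun {a b} h => h⟩⟩
    · intro hr
      obtain ⟨q⟩ := hr
      cases q with
      | nil => exact hv₀
      | cons h q => exact C.edge_vert h
  set n := p.length with hnlen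
  have hn3 : 3 ≤ n := hp.three_le_length
  refine ⟨n, fun i => p.getVert (i % n), hn3, ?_, ?_, ?_, ?_⟩
  · intro i
    simp
  · intro i hi j hj hij
    simp only [Set.mem_ofPred_eq] at hi hj
    simp only [Nat.mod_eq_of_lt hi, Nat.mod_eq_of_lt hj] at hij
    exact hp.getVert_injOn' (by simp only [Set.mem_ofPred_eq]; omega)
      (by simp only [Set.mem_ofPred_eq]; omega) hij
  · intro v
    rw [hverts, Walk.mem_support_iff_exists_getVert]
    constructor
    · rintro ⟨i, hi, hin⟩
      rcases Nat.lt_or_ge i n with h | h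
      · exact ⟨i, h, by simp only [Nat.mod_eq_of_lt h]; exact hi⟩
      · have : i = n := le_antisymm hin h
        refine ⟨0, by omega, ?_⟩
        rw [← hi, this, hnlen]
        simp
    · rintro ⟨i, hi, hv⟩
      simp only [Nat.mod_eq_of_lt hi] at hv
      exact ⟨i, hv, hi.le⟩
  · -- neighbours
    have hadj : ∀ i, C.Adj (p.getVert (i % n)) (p.getVert ((i + 1) % n)) := by
      intro i
      have hlt : i % n < n := Nat.mod_lt _ (by omega)
      have h1 := p.adj_getVert_succ hlt
      rcases Nat.lt_or_ge (i % n + 1) n with h | h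
      · have : (i + 1) % n = i % n + 1 := by
          rw [Nat.add_mod, Nat.mod_eq_of_lt (show 1 < n by omega), Nat.mod_eq_of_lt h]
        rw [this]
        exact h1
      · have h2 : i % n + 1 = n := le_antisymm hlt h
        have : (i + 1) % n = 0 := by
          rw [Nat.add_mod, Nat.mod_eq_of_lt (show 1 < n by omega), h2, Nat.mod_self]
        rw [this]
        have h3 : p.getVert (i % n + 1) = p.getVert 0 := by
          rw [h2, hnlen]; simp
        rw [← h3]
        exact h1
    have hne : ∀ i, p.getVert (i % n) ≠ p.getVert ((i + 2) % n) := by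
      intro i heq
      have h1 : i % n < n := Nat.mod_lt _ (by omega)
      have h2 : (i + 2) % n < n := Nat.mod_lt _ (by omega)
      have h3 := hp.getVert_injOn' (by simp only [Set.mem_ofPred_eq]; omega)
        (by simp only [Set.mem_ofPred_eq]; omega) heq
      have h4 : (i + 2) ≡ i [MOD n] := h3.symm
      have h5 : (n : ℤ) ∣ ((i + 2 : ℕ) : ℤ) - (i : ℤ) := (Nat.modEq_iff_dvd.mp h4.symm)
      have h6 : (n : ℤ) ∣ 2 := by
        have : ((i + 2 : ℕ) : ℤ) - (i : ℤ) = 2 := by push_cast; ring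
        rwa [this] at h5
      have := Int.le_of_dvd (by norm_num) h6
      omega
    intro i t
    have hv : p.getVert ((i + 1) % n) ∈ C.verts := C.edge_vert (hadj (i + 1))
    have hcard := hdeg _ hv
    have hset : C.neighborSet (p.getVert ((i + 1) % n)) =
        {p.getVert (i % n), p.getVert ((i + 2) % n)} := by
      symm
      apply Set.eq_of_subset_of_ncard_le
      · rintro x (rfl | rfl)
        · exact (hadj i).symm
        · exact hadj (i + 1)
      · rw [hcard, Set.ncard_pair (hne i)]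
      · exact Set.toFinite _
    have : t ∈ C.neighborSet (p.getVert ((i + 1) % n)) ↔
        t ∈ ({p.getVert (i % n), p.getVert ((i + 2) % n)} : Set V) := by rw [hset]
    simpa using this

/-! ### From a colouring to a faithful circuit cover -/

section Colouring

variable {K : Type} [Fintype K] {G : SimpleGraph V} (M : G.Subgraph) (κ : Sym2 V → K)

/-- The spanning subgraph formed by the non-matching edges of colour `c` and the matching edges
whose end sees colour `c`. -/
def colClass (hM2 : ∀ u v, M.Adj u v → ∀ c, (∃ x, (G.Adj u x ∧ ¬ M.Adj u x) ∧ κ s(u, x) = c) →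
    (∃ y, (G.Adj v y ∧ ¬ M.Adj v y) ∧ κ s(v, y) = c)) (c : K) : SimpleGraph V where
  Adj u v := ((G.Adj u v ∧ ¬ M.Adj u v) ∧ κ s(u, v) = c) ∨
    (M.Adj u v ∧ ∃ x, (G.Adj u x ∧ ¬ M.Adj u x) ∧ κ s(u, x) = c)
  symm := by
    refine ⟨?_⟩
    rintro u v (⟨⟨h1, h2⟩, h3⟩ | ⟨h1, h2⟩)
    · left
      exact ⟨⟨h1.symm, fun h => h2 h.symm⟩, by rw [Sym2.eq_swap]; exact h3⟩
    · right
      exact ⟨h1.symm, hM2 u v h1 c h2⟩
  loopless := by
    refine ⟨?_⟩
    rintro u (⟨⟨h1, _⟩, _⟩ | ⟨h1, _⟩)
    · exact h1.ne rfl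
    · exact h1.ne rfl

/-- component of a spanning subgraph `H ≤ G`, as a subgraph of `G`. -/
def compSub {G H : SimpleGraph V} (hH : H ≤ G) (C : H.ConnectedComponent) : G.Subgraph where
  verts := C.supp
  Adj u v := H.Adj u v ∧ u ∈ C.supp
  adj_sub h := hH h.1
  edge_vert h := h.2
  symm := by
    refine ⟨?_⟩
    rintro u v ⟨h1, h2⟩
    refine ⟨h1.symm, ?_⟩
    rw [ConnectedComponent.mem_supp_iff] at h2 ⊢
    rw [← h2]
    exact ConnectedComponent.sound h1.symm.reachable

lemma compSub_connected {G H : SimpleGraph V} (hH : H ≤ G) (C : H.ConnectedComponent) :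
    (compSub hH C).Connected := by
  refine ⟨?_⟩
  refine (C.connected_toSimpleGraph).mono ?_
  intro a b hab
  have h1 : H.Adj a.1 b.1 := hab
  exact ⟨h1, a.2⟩

theorem hasFCC_of_colouring [Finite V] (hM : M.IsPerfectMatching)
    (h1 : ∀ v, ∃ x y, x ≠ y ∧ (∀ t, (G.Adj v t ∧ ¬ M.Adj v t) ↔ (t = x ∨ t = y)) ∧
      κ s(v, x) ≠ κ s(v, y))
    (h2 : ∀ u v, M.Adj u v → ∀ c, (∃ x, (G.Adj u x ∧ ¬ M.Adj u x) ∧ κ s(u, x) = c) →
    (∃ y, (G.Adj v y ∧ ¬ M.Adj v y) ∧ κ s(v, y) = c)) :
    HasFaithfulCircuitCover G (wt M) := by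
  classical
  set H : K → SimpleGraph V := colClass M κ h2 with hHdef
  have hHG : ∀ c, H c ≤ G := by
    intro c u v huv
    rcases huv with ⟨⟨h, _⟩, _⟩ | ⟨h, _⟩
    · exact h
    · exact h.adj_sub
  -- degrees in the colour classes
  have hdeg : ∀ c v, ((H c).neighborSet v).Nonempty → ((H c).neighborSet v).ncard = 2 := by
    intro c v hne
    obtain ⟨x, y, hxy, hN, hcol⟩ := h1 v
    obtain ⟨m, hm, hmu⟩ := hM.1 (hM.2 v)
    -- c is seen at v
    have hseen : ∃ x, (G.Adj v x ∧ ¬ M.Adj v x) ∧ κ s(v, x) = c := by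
      obtain ⟨w, hw⟩ := hne
      rcases hw with ⟨h, h'⟩ | ⟨_, h⟩
      · exact ⟨w, h, h'⟩
      · exact h
    obtain ⟨z, hz, hzc⟩ := hseen
    have hset : (H c).neighborSet v = {z, m} := by
      ext t
      constructor
      · rintro (⟨ht, htc⟩ | ⟨ht, _⟩)
        · left
          have hz' := (hN z).mp hz
          have ht' := (hN t).mp ht
          rcases hz' with rfl | rfl <;> rcases ht' with rfl | rfl
          · rfl
          · exact absurd (hzc.trans htc.symm) hcol
          · exact absurd (htc.trans hzc.symm) hcol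
          · rfl
        · right
          exact hmu t ht
      · rintro (rfl | rfl)
        · left
          exact ⟨hz, hzc⟩
        · right
          exact ⟨hm, z, hz, hzc⟩
    rw [hset, Set.ncard_pair]
    rintro rfl
    exact hz.2 hm
  -- the index type
  let I := Σ c : K, {C : (H c).ConnectedComponent // ∃ v ∈ C.supp, ((H c).neighborSet v).Nonempty}
  have : Finite I := by
    have : ∀ c, Finite (H c).ConnectedComponent := fun c => inferInstance
    infer_instance
  have : Fintype I := Fintype.ofFinite I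
  let F : I → G.Subgraph := fun i => compSub (hHG i.1) i.2.1
  have hF : ∀ i, IsCircuit (F i) := by
    rintro ⟨c, C, v, hvC, hv⟩
    refine ⟨compSub_connected _ _, ?_⟩
    intro u hu
    have hu' : u ∈ C.supp := hu
    have hnb : (compSub (hHG c) C).neighborSet u = (H c).neighborSet u := by
      ext t
      constructor
      · intro h; exact h.1
      · intro h; exact ⟨h, hu'⟩
    show ((compSub (hHG c) C).neighborSet u).ncard = 2
    rw [hnb]
    apply hdeg
    -- u has a neighbour in its component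
    rw [ConnectedComponent.mem_supp_iff] at hu' hvC
    have hr : (H c).Reachable u v := by
      rw [← ConnectedComponent.eq, hu', hvC]
    obtain ⟨q⟩ := hr
    cases q with
    | nil => exact hv
    | cons h q => exact ⟨_, h⟩
  -- count the members through an edge
  have hcount : ∀ e ∈ G.edgeSet, {i : I | e ∈ (F i).edgeSet}.ncard = wt M e := by
    intro e
    induction e using Sym2.ind with
    | _ u v =>
    intro he
    rw [mem_edgeSet] at he
    -- bijection with colours
    have hbij : {i : I | s(u, v) ∈ (F i).edgeSet}.ncard = {c : K | (H c).Adj u v}.ncard := by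
      apply Set.ncard_congr (fun i _ => i.1)
      · rintro ⟨c, C, hC⟩ hi
        have hi' : (H c).Adj u v ∧ u ∈ C.supp := hi
        exact hi'.1
      · rintro ⟨c, C, hC⟩ ⟨c', C', hC'⟩ hi hi' hcc
        have h3 : (H c).Adj u v ∧ u ∈ C.supp := hi
        have h4 : (H c').Adj u v ∧ u ∈ C'.supp := hi'
        simp only at hcc
        subst hcc
        have : C = C' := by
          have h5 := h3.2
          have h6 := h4.2
          rw [ConnectedComponent.mem_supp_iff] at h5 h6
          rw [← h5, ← h6]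
        subst this
        rfl
      · intro c hc
        have hc' : (H c).Adj u v := hc
        exact ⟨⟨c, (H c).connectedComponentMk u, u, rfl, ⟨v, hc'⟩⟩, ⟨hc', rfl⟩, rfl⟩
    rw [hbij]
    obtain ⟨x, y, hxy, hN, hcol⟩ := h1 u
    by_cases hMuv : M.Adj u v
    · have hset : {c : K | (H c).Adj u v} = {κ s(u, x), κ s(u, y)} := by
        ext c
        constructor
        · rintro (⟨⟨_, h⟩, _⟩ | ⟨_, z, hz, hzc⟩)
          · exact absurd hMuv h
          · rcases (hN z).mp hz with rfl | rfl
            · left; exact hzc.symm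
            · right; exact hzc.symm
        · rintro (rfl | rfl)
          · right; exact ⟨hMuv, x, (hN x).mpr (Or.inl rfl), rfl⟩
          · right; exact ⟨hMuv, y, (hN y).mpr (Or.inr rfl), rfl⟩
      rw [hset, Set.ncard_pair hcol, wt, if_pos]
      exact hMuv
    · have hset : {c : K | (H c).Adj u v} = {κ s(u, v)} := by
        ext c
        constructor
        · rintro (⟨_, h⟩ | ⟨h, _⟩)
          · exact h.symm
          · exact absurd h hMuv
        · rintro rfl
          left
          exact ⟨⟨he, hMuv⟩, rfl⟩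
      rw [hset, Set.ncard_singleton, wt, if_neg]
      exact hMuv
  -- transfer to `Fin k`
  let e := Fintype.equivFin I
  refine ⟨Fintype.card I, fun j => F (e.symm j), fun j => hF _, ?_⟩
  intro a ha
  rw [← hcount a ha]
  apply Set.ncard_congr (fun j _ => e.symm j)
  · intro j hj; exact hj
  · intro j j' _ _ h; exact e.symm.injective h
  · intro i hi
    exact ⟨e i, by simpa using hi, by simp⟩

end Colouring

/-- A cyclic sequence of colours can be put on the edges of an enumerated circuit. -/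
lemma enum_colour {K : Type} [Inhabited K] {G : SimpleGraph V} {C : G.Subgraph} {n : ℕ} {c : ℕ → V}
    (hn : 3 ≤ n) (hper : ∀ i, c (i + n) = c i) (hinj : Set.InjOn c {i | i < n})
    (hadj : ∀ i t, C.Adj (c (i + 1)) t ↔ t = c i ∨ t = c (i + 2)) (a : ℕ → K) (ha : a n = a 0) :
    ∃ κ : Sym2 V → K, ∀ k < n, ∃ x y, x ≠ y ∧ (∀ t, C.Adj (c k) t ↔ t = x ∨ t = y) ∧
      κ s(c k, x) = a k ∧ κ s(c k, y) = a (k + 1) := by
  classical
  have hinj' : ∀ i j, i < n → j < n → c i = c j → i = j := fun i j hi hj h => hinj hi hj h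
  have hnext : ∀ j, j < n → ∃ j', j' < n ∧ c (j + 1) = c j' ∧
      ((j + 1 < n ∧ j' = j + 1) ∨ (j + 1 = n ∧ j' = 0)) := by
    intro j hj
    rcases Nat.lt_or_ge (j + 1) n with h | h
    · exact ⟨j + 1, h, rfl, Or.inl ⟨h, rfl⟩⟩
    · refine ⟨0, by omega, ?_, Or.inr ⟨by omega, rfl⟩⟩
      have h2 : j + 1 = 0 + n := by omega
      rw [h2, hper]
  have hedge : ∀ i j, i < n → j < n → s(c i, c (i + 1)) = s(c j, c (j + 1)) → i = j := by
    intro i j hi hj h
    rw [Sym2.eq_iff] at h
    rcases h with ⟨h, _⟩ | ⟨h, h'⟩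
    · exact hinj' i j hi hj h
    · obtain ⟨j', hj', hcj, hj2⟩ := hnext j hj
      obtain ⟨i', hi', hci, hi2⟩ := hnext i hi
      rw [hcj] at h
      rw [hci] at h'
      have e1 := hinj' _ _ hi hj' h
      have e2 := hinj' _ _ hi' hj h'
      omega
  let κ : Sym2 V → K := fun e =>
    if h : ∃ i, i < n ∧ e = s(c i, c (i + 1)) then a (h.choose + 1) else default
  have hκ : ∀ i, i < n → κ s(c i, c (i + 1)) = a (i + 1) := by
    intro i hi
    have hex : ∃ j, j < n ∧ s(c i, c (i + 1)) = s(c j, c (j + 1)) := ⟨i, hi, rfl⟩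
    have h1 : κ s(c i, c (i + 1)) = a (hex.choose + 1) := dif_pos hex
    rw [h1]
    have h2 := hex.choose_spec
    rw [← hedge i _ hi h2.1 h2.2]
  refine ⟨κ, ?_⟩
  intro k hk
  have hck : c k = c (k + n - 1 + 1) := by
    have : k + n - 1 + 1 = k + n := by omega
    rw [this, hper]
  have hc2 : c (k + n - 1 + 2) = c (k + 1) := by
    have : k + n - 1 + 2 = k + 1 + n := by omega
    rw [this, hper]
  refine ⟨c (k + n - 1), c (k + 1), ?_, ?_, ?_, hκ k hk⟩
  · intro heq
    obtain ⟨j', hj', hcj, hj2⟩ := hnext k hk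
    rw [hcj] at heq
    rcases Nat.eq_zero_or_pos k with h0 | h0
    · subst h0
      have e1 := hinj' (0 + n - 1) j' (by omega) hj' heq
      omega
    · have h2 : k + n - 1 = (k - 1) + n := by omega
      rw [h2, hper] at heq
      have e1 := hinj' (k - 1) j' (by omega) hj' heq
      omega
  · intro t
    rw [hck, hadj, hc2]
  · rcases Nat.eq_zero_or_pos k with h0 | h0
    · subst h0
      have h1 := hκ (n - 1) (by omega)
      have h2 : n - 1 + 1 = n := by omega
      rw [h2] at h1
      have h3 : c n = c 0 := by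
        have := hper 0
        rwa [zero_add] at this
      rw [zero_add, Sym2.eq_swap, ← h3, h1, ha]
    · have h1 := hκ (k - 1) (by omega)
      have h2 : k - 1 + 1 = k := by omega
      rw [h2] at h1
      have h3 : c (k + n - 1) = c (k - 1) := by
        have : k + n - 1 = k - 1 + n := by omega
        rw [this, hper]
      rw [h3, Sym2.eq_swap, h1]

/-! ### Permutation graphs and enumerations -/

/-- a periodic enumeration of a circuit by the natural numbers. -/
structure IsEnum {G : SimpleGraph V} (C : G.Subgraph) (n : ℕ) (c : ℕ → V) : Prop where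
  three : 3 ≤ n
  per : ∀ i, c (i + n) = c i
  inj : Set.InjOn c {i | i < n}
  verts : ∀ v, v ∈ C.verts ↔ ∃ i < n, c i = v
  adj : ∀ i t, C.Adj (c (i + 1)) t ↔ t = c i ∨ t = c (i + 2)

section Perm

variable {G : SimpleGraph V} {M C₁ C₂ : G.Subgraph}

lemma mate_unique (h : IsPermutationGraph G M C₁ C₂) :
    ∀ v w w', M.Adj v w → M.Adj v w' → w = w' := by
  intro v w w' h1 h2
  exact (h.perfect.1 (h.perfect.2 v)).unique h1 h2

lemma cover_verts [Finite V] (h : IsPermutationGraph G M C₁ C₂) :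
    ∀ v, v ∈ C₁.verts ∨ v ∈ C₂.verts := by
  intro v
  obtain ⟨m, hm, hmu⟩ := h.perfect.1 (h.perfect.2 v)
  have : ∃ t, t ∈ G.neighborSet v ∧ t ≠ m := by
    by_contra hcon
    push Not at hcon
    have hsub : G.neighborSet v ⊆ {m} := fun t ht => hcon t ht
    have := Set.ncard_le_ncard hsub (Set.finite_singleton m)
    rw [h.cubic v, Set.ncard_singleton] at this
    omega
  obtain ⟨t, ht, htm⟩ := this
  have h1 := (h.union v t).mp ⟨ht, fun hMt => htm (hmu t hMt)⟩
  rcases h1 with h1 | h1
  · exact Or.inl (C₁.edge_vert h1)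
  · exact Or.inr (C₂.edge_vert h1)

lemma not_both (h : IsPermutationGraph G M C₁ C₂) : ∀ v, v ∈ C₁.verts → v ∉ C₂.verts :=
  fun _ h1 h2 => Set.disjoint_left.mp h.disjoint h1 h2

lemma cross₁ [Finite V] (h : IsPermutationGraph G M C₁ C₂) :
    ∀ u v, M.Adj u v → u ∈ C₁.verts → v ∈ C₂.verts := by
  intro u v huv hu
  rcases cover_verts h v with hv | hv
  · exfalso
    have h1 : C₁.Adj u v := h.chordless₁ hu hv huv.adj_sub
    exact ((h.union u v).mpr (Or.inl h1)).2 huv
  · exact hv

lemma cross₂ [Finite V] (h : IsPermutationGraph G M C₁ C₂) :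
    ∀ u v, M.Adj u v → u ∈ C₂.verts → v ∈ C₁.verts := by
  intro u v huv hu
  rcases cover_verts h v with hv | hv
  · exact hv
  · exfalso
    have h1 : C₂.Adj u v := h.chordless₂ hu hv huv.adj_sub
    exact ((h.union u v).mpr (Or.inr h1)).2 huv

variable {n n' : ℕ} {c c' : ℕ → V}

lemma enum_mem (hc : IsEnum C₁ n c) (i : Fin n) : c i ∈ C₁.verts := (hc.verts _).mpr ⟨i, i.2, rfl⟩

lemma map_injective (h : IsPermutationGraph G M C₁ C₂) (hc : IsEnum C₁ n c)
    (f : Fin n → Fin n') (hf : ∀ i : Fin n, M.Adj (c i) (c' (f i))) : Function.Injective f := by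
  intro i j hij
  have h1 := hf i
  have h2 := hf j
  rw [← hij] at h2
  have h3 := mate_unique h _ _ _ h1.symm h2.symm
  exact Fin.ext (hc.inj i.2 j.2 h3)

lemma map_surjective [Finite V] (h : IsPermutationGraph G M C₁ C₂) (hc : IsEnum C₁ n c)
    (hc' : IsEnum C₂ n' c')
    (f : Fin n → Fin n') (hf : ∀ i : Fin n, M.Adj (c i) (c' (f i))) : Function.Surjective f := by
  intro j
  obtain ⟨m, hm, _⟩ := h.perfect.1 (h.perfect.2 (c' j))
  obtain ⟨i, hi, him⟩ := (hc.verts m).mp (cross₂ h _ _ hm (enum_mem hc' j))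
  refine ⟨⟨i, hi⟩, ?_⟩
  have h1 := hf ⟨i, hi⟩
  have h2 : M.Adj (c i) (c' j) := by rw [him]; exact hm.symm
  have h3 := mate_unique h _ _ _ h1 h2
  exact Fin.ext (hc'.inj (f ⟨i, hi⟩).2 j.2 h3)

lemma exists_map [Finite V] (h : IsPermutationGraph G M C₁ C₂) (hc : IsEnum C₁ n c)
    (hc' : IsEnum C₂ n' c') : ∃ f : Fin n → Fin n', ∀ i : Fin n, M.Adj (c i) (c' (f i)) := by
  have hmate : ∀ i : Fin n, ∃ j : Fin n', M.Adj (c i) (c' j) := by
    intro i
    obtain ⟨m, hm, _⟩ := h.perfect.1 (h.perfect.2 (c i))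
    obtain ⟨j, hj, hjm⟩ := (hc'.verts m).mp (cross₁ h _ _ hm (enum_mem hc i))
    exact ⟨⟨j, hj⟩, by simpa [hjm] using hm⟩
  choose f hf using hmate
  exact ⟨f, hf⟩

lemma card_verts [Finite V] (h : IsPermutationGraph G M C₁ C₂) (hc : IsEnum C₁ n c)
    (hc' : IsEnum C₂ n c') : Nat.card V = 2 * n := by
  let φ : Fin n ⊕ Fin n → V := Sum.elim (fun i => c i) (fun i => c' i)
  have hφ : Function.Bijective φ := by
    constructor
    · rintro (i | i) (j | j) hij
      · have : c i = c j := hij
        rw [Fin.ext (hc.inj i.2 j.2 this)]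
      · exfalso
        have h1 : c i = c' j := hij
        have h2 := enum_mem hc i
        rw [h1] at h2
        exact not_both h _ h2 (enum_mem hc' j)
      · exfalso
        have h1 : c' i = c j := hij
        have h2 := enum_mem hc j
        rw [← h1] at h2
        exact not_both h _ h2 (enum_mem hc' i)
      · have : c' i = c' j := hij
        rw [Fin.ext (hc'.inj i.2 j.2 this)]
    · intro v
      rcases cover_verts h v with hv | hv
      · obtain ⟨i, hi, hiv⟩ := (hc.verts v).mp hv
        exact ⟨Sum.inl ⟨i, hi⟩, hiv⟩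
      · obtain ⟨i, hi, hiv⟩ := (hc'.verts v).mp hv
        exact ⟨Sum.inr ⟨i, hi⟩, hiv⟩
  rw [← Nat.card_eq_of_bijective φ hφ, Nat.card_eq_fintype_card, Fintype.card_sum,
    Fintype.card_fin]
  ring

/-- From colour differences to a faithful circuit cover. -/
theorem cover_of_delta [Finite V] (h : IsPermutationGraph G M C₁ C₂) (hc : IsEnum C₁ n c)
    (hc' : IsEnum C₂ n c') (f : Fin n → Fin n) (hf : ∀ i : Fin n, M.Adj (c i) (c' (f i)))
    {K : Type} [AddCommGroup K] [Fintype K] (hself : ∀ x : K, x + x = 0)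
    (δ : Fin n → K) (κ₀ : K) (hδ : ∀ m, δ m ≠ 0) (hδsum : ∑ m, δ m = 0)
    (hkey : ∀ k, (κ₀ + ∑ m with f m < f k, δ m = ∑ m with m < k, δ m) ∨
        (κ₀ + ∑ m with f m < f k, δ m = ∑ m with m < k, δ m + δ k)) :
    HasFaithfulCircuitCover G (wt M) := by
  classical
  have hfinj := map_injective h hc f hf
  have hfsurj := map_surjective h hc hc' f hf
  have hMuniq := mate_unique h
  have hcover := cover_verts h
  have hnot := not_both h
  have hc1 : ∀ i : Fin n, c i ∈ C₁.verts := fun i => enum_mem hc i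
  have hc2 : ∀ i : Fin n, c' i ∈ C₂.verts := fun i => enum_mem hc' i
  obtain ⟨hn3, hper, hinj, hverts, hadj⟩ := hc
  obtain ⟨hn3', hper', hinj', hverts', hadj'⟩ := hc'
  have : Inhabited K := ⟨0⟩
  -- partial sums
  let a : ℕ → K := fun i => ∑ m with m.val < i, δ m
  let b : ℕ → K := fun j => κ₀ + ∑ m with (f m).val < j, δ m
  have ha0 : a 0 = 0 := by simp [a]
  have han : a n = 0 := by
    simp only [a]
    rw [Finset.filter_true_of_mem (fun m _ => m.2)]
    exact hδsum
  have hb0 : b 0 = κ₀ := by simp [b]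
  have hbn : b n = κ₀ := by
    simp only [b]
    rw [Finset.filter_true_of_mem (fun m _ => (f m).2), hδsum, add_zero]
  have hastep : ∀ k : Fin n, a (k + 1) = a k + δ k := by
    intro k
    simp only [a]
    have : (Finset.univ.filter (fun m : Fin n => m.val < k.val + 1)) =
        insert k (Finset.univ.filter (fun m : Fin n => m.val < k.val)) := by
      ext m
      simp only [Finset.mem_filter, Finset.mem_univ, true_and, Finset.mem_insert]
      constructor
      · intro hm
        by_cases hmk : m = k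
        · exact Or.inl hmk
        · right
          have : m.val ≠ k.val := fun h' => hmk (Fin.ext h')
          omega
      · rintro (rfl | hm)
        · omega
        · omega
    rw [this, Finset.sum_insert (by simp), add_comm]
  have hbstep : ∀ k : Fin n, b (f k + 1) = b (f k) + δ k := by
    intro k
    simp only [b]
    have : (Finset.univ.filter (fun m : Fin n => (f m).val < (f k).val + 1)) =
        insert k (Finset.univ.filter (fun m : Fin n => (f m).val < (f k).val)) := by
      ext m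
      simp only [Finset.mem_filter, Finset.mem_univ, true_and, Finset.mem_insert]
      constructor
      · intro hm
        by_cases hmk : m = k
        · exact Or.inl hmk
        · right
          have : (f m).val ≠ (f k).val := fun h' => hmk (hfinj (Fin.ext h'))
          omega
      · rintro (rfl | hm)
        · omega
        · omega
    rw [this, Finset.sum_insert (by simp)]
    abel
  have hab : ∀ k : Fin n, (b (f k) = a k ∧ b (f k + 1) = a (k + 1)) ∨
      (b (f k) = a (k + 1) ∧ b (f k + 1) = a k) := by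
    intro k
    rcases hkey k with h1 | h1
    · left
      have h2 : b (f k) = a k := h1
      exact ⟨h2, by rw [hbstep, hastep, h2]⟩
    · right
      have h2 : b (f k) = a (k + 1) := by rw [hastep]; exact h1
      refine ⟨h2, ?_⟩
      rw [hbstep, h2, hastep, add_assoc, hself, add_zero]
  have haδ : ∀ k : Fin n, a k ≠ a (k + 1) := by
    intro k heq
    rw [hastep] at heq
    exact hδ k (by simpa using heq)
  -- the colouring
  obtain ⟨κ₁, hκ₁⟩ := enum_colour hn3 hper hinj hadj a (by rw [han, ha0])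
  obtain ⟨κ₂, hκ₂⟩ := enum_colour hn3' hper' hinj' hadj' b (by rw [hbn, hb0])
  let κ : Sym2 V → K := fun e => if e ∈ C₁.edgeSet then κ₁ e else κ₂ e
  have hv1 : ∀ k : Fin n, ∃ x y, x ≠ y ∧
      (∀ t, (G.Adj (c k) t ∧ ¬ M.Adj (c k) t) ↔ (t = x ∨ t = y)) ∧
      κ s(c k, x) = a k ∧ κ s(c k, y) = a (k + 1) := by
    intro k
    obtain ⟨x, y, hxy, hN, hx, hy⟩ := hκ₁ k k.2
    refine ⟨x, y, hxy, ?_, ?_, ?_⟩
    · intro t
      rw [h.union, ← hN]
      constructor
      · rintro (h1 | h1)
        · exact h1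
        · exact absurd (C₂.edge_vert h1) (hnot _ (hc1 k))
      · exact Or.inl
    · have : s(c k, x) ∈ C₁.edgeSet := (hN x).mpr (Or.inl rfl)
      simp only [κ, if_pos this, hx]
    · have : s(c k, y) ∈ C₁.edgeSet := (hN y).mpr (Or.inr rfl)
      simp only [κ, if_pos this, hy]
  have hv2 : ∀ k : Fin n, ∃ x y, x ≠ y ∧
      (∀ t, (G.Adj (c' (f k)) t ∧ ¬ M.Adj (c' (f k)) t) ↔ (t = x ∨ t = y)) ∧
      κ s(c' (f k), x) = b (f k) ∧ κ s(c' (f k), y) = b (f k + 1) := by
    intro k
    obtain ⟨x, y, hxy, hN, hx, hy⟩ := hκ₂ (f k) (f k).2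
    have hno : ∀ t, s(c' (f k), t) ∉ C₁.edgeSet := fun t ht =>
      hnot _ (C₁.edge_vert ht) (hc2 (f k))
    refine ⟨x, y, hxy, ?_, ?_, ?_⟩
    · intro t
      rw [h.union, ← hN]
      constructor
      · rintro (h1 | h1)
        · exact absurd (hc2 (f k)) (hnot _ (C₁.edge_vert h1))
        · exact h1
      · exact Or.inr
    · simp only [κ, if_neg (hno x), hx]
    · simp only [κ, if_neg (hno y), hy]
  -- colours seen at the two ends of a matching edge
  have hs1 : ∀ k : Fin n, ∀ col, (∃ x, (G.Adj (c k) x ∧ ¬ M.Adj (c k) x) ∧ κ s(c k, x) = col) ↔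
      (col = a k ∨ col = a (k + 1)) := by
    intro k col
    obtain ⟨x, y, hxy, hN, hx, hy⟩ := hv1 k
    constructor
    · rintro ⟨t, ht, rfl⟩
      rcases (hN t).mp ht with rfl | rfl
      · exact Or.inl hx
      · exact Or.inr hy
    · rintro (rfl | rfl)
      · exact ⟨x, (hN x).mpr (Or.inl rfl), hx⟩
      · exact ⟨y, (hN y).mpr (Or.inr rfl), hy⟩
  have hs2 : ∀ k : Fin n, ∀ col, (∃ x, (G.Adj (c' (f k)) x ∧ ¬ M.Adj (c' (f k)) x) ∧
      κ s(c' (f k), x) = col) ↔ (col = a k ∨ col = a (k + 1)) := by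
    intro k col
    obtain ⟨x, y, hxy, hN, hx, hy⟩ := hv2 k
    have h1 : (∃ t, (G.Adj (c' (f k)) t ∧ ¬ M.Adj (c' (f k)) t) ∧ κ s(c' (f k), t) = col) ↔
        (col = b (f k) ∨ col = b (f k + 1)) := by
      constructor
      · rintro ⟨t, ht, rfl⟩
        rcases (hN t).mp ht with rfl | rfl
        · exact Or.inl hx
        · exact Or.inr hy
      · rintro (rfl | rfl)
        · exact ⟨x, (hN x).mpr (Or.inl rfl), hx⟩
        · exact ⟨y, (hN y).mpr (Or.inr rfl), hy⟩
    rw [h1]
    rcases hab k with ⟨h2, h3⟩ | ⟨h2, h3⟩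
    · rw [h2, h3]
    · rw [h2, h3]; exact or_comm
  apply hasFCC_of_colouring M κ h.perfect
  · intro v
    rcases hcover v with hv | hv
    · obtain ⟨k, hk, rfl⟩ := (hverts v).mp hv
      obtain ⟨x, y, hxy, hN, hx, hy⟩ := hv1 ⟨k, hk⟩
      refine ⟨x, y, hxy, hN, ?_⟩
      intro heq
      exact haδ ⟨k, hk⟩ (hx.symm.trans (heq.trans hy))
    · obtain ⟨j, hj, rfl⟩ := (hverts' v).mp hv
      obtain ⟨k, hk⟩ := hfsurj ⟨j, hj⟩
      have hfk : (f k).val = j := by rw [hk]
      obtain ⟨x, y, hxy, hN, hx, hy⟩ := hv2 k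
      rw [hfk] at hN hx hy
      refine ⟨x, y, hxy, hN, ?_⟩
      intro heq
      have h1 : b j = b (j + 1) := hx.symm.trans (heq.trans hy)
      rw [← hfk] at h1
      rcases hab k with ⟨h2, h3⟩ | ⟨h2, h3⟩
      · exact haδ k (by rw [← h2, ← h3]; exact h1)
      · exact haδ k (by rw [← h2, ← h3]; exact h1.symm)
  · intro u v huv col hcol
    rcases hcover u with hu | hu
    · obtain ⟨k, hk, rfl⟩ := (hverts u).mp hu
      have h1 : v = c' (f ⟨k, hk⟩) := hMuniq _ _ _ huv (hf ⟨k, hk⟩)
      rw [h1, hs2 ⟨k, hk⟩]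
      exact (hs1 ⟨k, hk⟩ col).mp hcol
    · obtain ⟨j, hj, rfl⟩ := (hverts' u).mp hu
      obtain ⟨k, hk⟩ := hfsurj ⟨j, hj⟩
      have hfk : (f k).val = j := by rw [hk]
      have h0 := hf k
      rw [hfk] at h0
      have h1 : v = c k := hMuniq _ _ _ huv h0.symm
      rw [h1, hs1 k]
      have h2 := hs2 k col
      rw [hfk] at h2
      exact h2.mp hcol


end Perm

/-- a cyclic numbering gives a periodic enumeration. -/
lemma isEnum_of_numbering [Finite V] {G : SimpleGraph V} {C : G.Subgraph} (hC : IsCircuit C) {n : ℕ} [NeZero n]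
    (hn : 3 ≤ n) {x : Fin n → V} (hx : IsCyclicNumbering C x) :
    IsEnum C n (fun i => x (Fin.ofNat n i)) := by
  obtain ⟨hinj, hrange, hadj⟩ := hx
  have hadj' : ∀ i : ℕ, C.Adj (x (Fin.ofNat n i)) (x (Fin.ofNat n (i + 1))) := by
    intro i
    have : Fin.ofNat n (i + 1) = Fin.ofNat n i + 1 := by
      apply Fin.ext
      rw [Fin.val_add]
      simp [Fin.ofNat]
    rw [this]
    exact hadj _
  have hne : ∀ i : ℕ, x (Fin.ofNat n i) ≠ x (Fin.ofNat n (i + 2)) := by
    intro i heq
    have h3 := congrArg Fin.val (hinj heq)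
    simp only [Fin.ofNat] at h3
    have h4 : (i + 2) ≡ i [MOD n] := h3.symm
    have h5 : (n : ℤ) ∣ ((i + 2 : ℕ) : ℤ) - (i : ℤ) := (Nat.modEq_iff_dvd.mp h4.symm)
    have h6 : (n : ℤ) ∣ 2 := by
      have : ((i + 2 : ℕ) : ℤ) - (i : ℤ) = 2 := by push_cast; ring
      rwa [this] at h5
    have := Int.le_of_dvd (by norm_num) h6
    omega
  refine ⟨hn, ?_, ?_, ?_, ?_⟩
  · intro i
    congr 1
    apply Fin.ext
    simp [Fin.ofNat]
  · intro i hi j hj hij
    simp only [Set.mem_ofPred_eq] at hi hj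
    have h3 := congrArg Fin.val (hinj hij)
    simpa [Fin.ofNat, Nat.mod_eq_of_lt hi, Nat.mod_eq_of_lt hj] using h3
  · intro v
    rw [← hrange]
    constructor
    · rintro ⟨i, rfl⟩
      refine ⟨i.val, i.2, ?_⟩
      congr 1
      apply Fin.ext
      simp [Fin.ofNat, Nat.mod_eq_of_lt i.2]
    · rintro ⟨i, _, rfl⟩
      exact ⟨_, rfl⟩
  · intro i t
    have hv : x (Fin.ofNat n (i + 1)) ∈ C.verts := C.edge_vert (hadj' (i + 1))
    have hcard := hC.2 _ hv
    have hset : C.neighborSet (x (Fin.ofNat n (i + 1))) =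
        {x (Fin.ofNat n i), x (Fin.ofNat n (i + 2))} := by
      symm
      apply Set.eq_of_subset_of_ncard_le
      · rintro y (rfl | rfl)
        · exact (hadj' i).symm
        · exact hadj' (i + 1)
      · rw [hcard, Set.ncard_pair (hne i)]
      · exact Set.toFinite _
    have : t ∈ C.neighborSet (x (Fin.ofNat n (i + 1))) ↔
        t ∈ ({x (Fin.ofNat n i), x (Fin.ofNat n (i + 2))} : Set V) := by rw [hset]
    simpa using this

end Pool.Agent.H5.Goddyn
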