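import Mathlib

set_option linter.unusedSectionVars false

/-!
Linear algebra over the field with two elements: kernels of a symmetric matrix `B` with, at each
index `w`, the constraint `α w * (B z) w + β w * z w = 0`.  The three nonzero pairs `(α, β)` at one
index give three subspaces whose dimensions are `a + 1`, `a`, `a` in some order.
-/

namespace Pool.Agent.H5.Goddyn

open Matrix

abbrev K2 := ZMod 2

variable {κ : Type*} [Fintype κ] [DecidableEq κ]

/-- the functional at the index `w` in the state `σ`. -/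
def con (B : Matrix κ κ K2) (σ : κ → K2 × K2) (w : κ) : (κ → K2) →ₗ[K2] K2 :=
  (σ w).1 • ((LinearMap.proj w).comp B.mulVecLin) + (σ w).2 • LinearMap.proj w

lemma con_apply (B : Matrix κ κ K2) (σ : κ → K2 × K2) (w : κ) (z : κ → K2) :
    con B σ w z = (σ w).1 * (B *ᵥ z) w + (σ w).2 * z w := by
  simp [con]

/-- the subspace of a state. -/
def sp (B : Matrix κ κ K2) (σ : κ → K2 × K2) : Submodule K2 (κ → K2) :=
  ⨅ w, LinearMap.ker (con B σ w)

lemma mem_sp (B : Matrix κ κ K2) (σ : κ → K2 × K2) (z : κ → K2) :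
    z ∈ sp B σ ↔ ∀ w, (σ w).1 * (B *ᵥ z) w + (σ w).2 * z w = 0 := by
  simp [sp, con_apply]

/-- the constraints away from the index `v`. -/
def rest (B : Matrix κ κ K2) (σ : κ → K2 × K2) (v : κ) : Submodule K2 (κ → K2) :=
  ⨅ w : {w // w ≠ v}, LinearMap.ker (con B σ w.1)

lemma mem_rest (B : Matrix κ κ K2) (σ : κ → K2 × K2) (v : κ) (z : κ → K2) :
    z ∈ rest B σ v ↔ ∀ w, w ≠ v → (σ w).1 * (B *ᵥ z) w + (σ w).2 * z w = 0 := by
  simp [rest, con_apply]

lemma sp_update (B : Matrix κ κ K2) (σ : κ → K2 × K2) (v : κ) (p : K2 × K2) :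
    sp B (Function.update σ v p) = rest B σ v ⊓ LinearMap.ker (con B (Function.update σ v p) v) := by
  ext z
  rw [Submodule.mem_inf, mem_sp, mem_rest, LinearMap.mem_ker, con_apply]
  constructor
  · intro h
    refine ⟨?_, h v⟩
    intro w hw
    have := h w
    rwa [Function.update_of_ne hw] at this
  · rintro ⟨h1, h2⟩ w
    by_cases hw : w = v
    · subst hw; exact h2
    · rw [Function.update_of_ne hw]
      exact h1 w hw

/-- the number of dimensions. -/
noncomputable def dm (B : Matrix κ κ K2) (σ : κ → K2 × K2) : ℕ := Module.finrank K2 (sp B σ)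

lemma finrank_inf_ker {E : Type*} [AddCommGroup E] [Module K2 E] [FiniteDimensional K2 E]
    (S : Submodule K2 E) (f : E →ₗ[K2] K2) (hf : ∃ z ∈ S, f z ≠ 0) :
    Module.finrank K2 (S ⊓ LinearMap.ker f : Submodule K2 E) + 1 = Module.finrank K2 S := by
  have h1 : (f.domRestrict S : Module.Dual K2 S) ≠ 0 := by
    obtain ⟨z, hz, hfz⟩ := hf
    intro h
    apply hfz
    have := LinearMap.congr_fun h ⟨z, hz⟩
    simpa using this
  rw [← Module.Dual.finrank_ker_add_one_of_ne_zero h1]
  congr 1
  have h2 : (LinearMap.ker (f.domRestrict S)) = Submodule.comap S.subtype (LinearMap.ker f) := by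
    ext z
    simp
  rw [h2, ← Submodule.finrank_map_subtype_eq, Submodule.map_comap_subtype]

lemma inf_ker_eq {E : Type*} [AddCommGroup E] [Module K2 E]
    (S : Submodule K2 E) (f : E →ₗ[K2] K2) (hf : ∀ z ∈ S, f z = 0) :
    (S ⊓ LinearMap.ker f : Submodule K2 E) = S := by
  apply inf_eq_left.mpr
  intro z hz
  exact hf z hz

lemma k2_iso : ∀ α β a b a' b' : K2, (α, β) ≠ (0, 0) → α * b + β * a = 0 → α * b' + β * a' = 0 →
    a * b' = a' * b := by decide

/-- isotropy. -/
lemma isotropic (B : Matrix κ κ K2) (hB : B.IsSymm) (σ : κ → K2 × K2) (hσ : ∀ w, σ w ≠ (0, 0))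
    (v : κ) (z z' : κ → K2) (hz : z ∈ rest B σ v) (hz' : z' ∈ rest B σ v) :
    z v * (B *ᵥ z') v = z' v * (B *ᵥ z) v := by
  rw [mem_rest] at hz hz'
  have h1 : ∀ w, w ≠ v → z w * (B *ᵥ z') w = z' w * (B *ᵥ z) w := by
    intro w hw
    exact k2_iso (σ w).1 (σ w).2 (z w) _ (z' w) _ (hσ w) (hz w hw) (hz' w hw)
  have h2 : z ⬝ᵥ (B *ᵥ z') = z' ⬝ᵥ (B *ᵥ z) := by
    rw [Matrix.dotProduct_mulVec, ← Matrix.mulVec_transpose, hB.eq, dotProduct_comm]
  unfold dotProduct at h2
  rw [← Finset.add_sum_erase _ _ (Finset.mem_univ v), ← Finset.add_sum_erase _ _ (Finset.mem_univ v)] at h2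
  rw [Finset.sum_congr rfl (fun w hw => h1 w (Finset.ne_of_mem_erase hw))] at h2
  exact add_right_cancel h2

/-- the image at `v` is not zero. -/
lemma exists_ne (B : Matrix κ κ K2) (hB : B.IsSymm) (σ : κ → K2 × K2) (v : κ) :
    ∃ z ∈ rest B σ v, z v ≠ 0 ∨ (B *ᵥ z) v ≠ 0 := by
  by_contra hcon
  push Not at hcon
  have h1 : rest B σ v ≤ LinearMap.ker (LinearMap.proj v : (κ → K2) →ₗ[K2] K2) := by
    intro z hz
    exact (hcon z hz).1
  have h2 := mem_span_of_iInf_ker_le_ker h1
  rw [Submodule.mem_span_range_iff_exists_fun] at h2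
  obtain ⟨l, hl⟩ := h2
  let l' : κ → K2 := fun w => if h : w ≠ v then l ⟨w, h⟩ else 0
  have hl' : ∀ z : κ → K2, ∑ w, l' w * con B σ w z = z v := by
    intro z
    have h3 := LinearMap.congr_fun hl z
    simp only [LinearMap.coe_sum, Finset.sum_apply, LinearMap.smul_apply, LinearMap.proj_apply,
      smul_eq_mul] at h3
    rw [← h3]
    rw [← Finset.add_sum_erase _ _ (Finset.mem_univ v)]
    have h4 : l' v = 0 := by simp [l']
    rw [h4, zero_mul, zero_add]
    rw [Finset.sum_subtype (Finset.univ.erase v) (p := fun w => w ≠ v) (by simp)]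
    apply Finset.sum_congr rfl
    rintro ⟨w, hw⟩ _
    simp [l', hw]
  let y : κ → K2 := fun w => l' w * (σ w).1
  have hBy : ∀ u, (B *ᵥ y) u = (if u = v then 1 else 0) + l' u * (σ u).2 := by
    intro u
    have h3 := hl' (Pi.single u 1)
    simp only [con_apply, Matrix.mulVec_single_one] at h3
    have h4 : ∑ w, l' w * ((σ w).1 * B.col u w + (σ w).2 * (Pi.single u 1 : κ → K2) w)
        = (B *ᵥ y) u + l' u * (σ u).2 := by
      simp only [mul_add, Finset.sum_add_distrib]
      congr 1
      · simp only [Matrix.mulVec, dotProduct, y]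
        apply Finset.sum_congr rfl
        intro w _
        have : B.col u w = B u w := hB.apply u w
        rw [this]; ring
      · rw [Finset.sum_eq_single u]
        · simp
        · intro w _ hw
          simp [hw]
        · simp
    rw [h4] at h3
    have h5 : (Pi.single u 1 : κ → K2) v = if u = v then 1 else 0 := by
      by_cases h : u = v
      · subst h; simp
      · simp [h, Ne.symm h]
    rw [h5] at h3
    have h6 := CharTwo.add_self_eq_zero (l' u * (σ u).2)
    linear_combination h3 - h6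
  have hy : y ∈ rest B σ v := by
    rw [mem_rest]
    intro w hw
    rw [hBy, if_neg hw]
    have h6 := CharTwo.add_self_eq_zero (l' w * (σ w).1 * (σ w).2)
    simp only [y]
    linear_combination h6
  have h7 := (hcon y hy).2
  rw [hBy, if_pos rfl] at h7
  have h8 : l' v = 0 := by simp [l']
  rw [h8] at h7
  simp at h7

/-- The trichotomy: exactly one of the three functionals vanishes on the rest space. -/
lemma tri (B : Matrix κ κ K2) (hB : B.IsSymm) (σ : κ → K2 × K2) (hσ : ∀ w, σ w ≠ (0, 0)) (v : κ) :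
    (dm B (Function.update σ v (0, 1)) = dm B (Function.update σ v (1, 0)) + 1 ∧
      dm B (Function.update σ v (1, 1)) = dm B (Function.update σ v (1, 0)) ∧
      (∀ z ∈ rest B σ v, z v = 0) ∧ ∃ z ∈ rest B σ v, (B *ᵥ z) v ≠ 0) ∨
    (dm B (Function.update σ v (1, 0)) = dm B (Function.update σ v (0, 1)) + 1 ∧
      dm B (Function.update σ v (1, 1)) = dm B (Function.update σ v (0, 1)) ∧
      (∀ z ∈ rest B σ v, (B *ᵥ z) v = 0) ∧ ∃ z ∈ rest B σ v, z v ≠ 0) ∨
    (dm B (Function.update σ v (1, 1)) = dm B (Function.update σ v (0, 1)) + 1 ∧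
      dm B (Function.update σ v (1, 0)) = dm B (Function.update σ v (0, 1)) ∧
      ∃ z ∈ rest B σ v, z v * (B *ᵥ z) v ≠ 0) := by
  obtain ⟨z, hz, hne⟩ := exists_ne B hB σ v
  have e0 : ∀ y : κ → K2, con B (Function.update σ v (0, 1)) v y = y v := by
    intro y; simp [con_apply]
  have e1 : ∀ y : κ → K2, con B (Function.update σ v (1, 0)) v y = (B *ᵥ y) v := by
    intro y; simp [con_apply]
  have e2 : ∀ y : κ → K2, con B (Function.update σ v (1, 1)) v y = (B *ᵥ y) v + y v := by
    intro y; simp [con_apply]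
  have hiso := fun y hy => isotropic B hB σ hσ v z y hz hy
  unfold dm
  rw [sp_update, sp_update, sp_update]
  have c1 : (z v = 0 ∧ (B *ᵥ z) v = 1) ∨ (z v = 1 ∧ (B *ᵥ z) v = 0) ∨ (z v = 1 ∧ (B *ᵥ z) v = 1) := by
    have : ∀ a b : K2, (a ≠ 0 ∨ b ≠ 0) → ((a = 0 ∧ b = 1) ∨ (a = 1 ∧ b = 0) ∨ (a = 1 ∧ b = 1)) := by
      decide
    exact this _ _ hne
  rcases c1 with ⟨ha, hb⟩ | ⟨ha, hb⟩ | ⟨ha, hb⟩
  · left
    have h0 : ∀ y ∈ rest B σ v, y v = 0 := by
      intro y hy
      have := hiso y hy
      rw [ha, hb] at this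
      simpa using this.symm
    rw [inf_ker_eq _ _ (fun y hy => by rw [e0]; exact h0 y hy)]
    have d1 := finrank_inf_ker (rest B σ v) (con B (Function.update σ v (1, 0)) v)
      ⟨z, hz, by rw [e1, hb]; decide⟩
    have d2 := finrank_inf_ker (rest B σ v) (con B (Function.update σ v (1, 1)) v)
      ⟨z, hz, by rw [e2, ha, hb]; decide⟩
    refine ⟨by omega, by omega, h0, z, hz, by rw [hb]; decide⟩
  · right; left
    have h0 : ∀ y ∈ rest B σ v, (B *ᵥ y) v = 0 := by
      intro y hy
      have := hiso y hy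
      rw [ha, hb] at this
      simpa using this
    rw [inf_ker_eq (rest B σ v) (con B (Function.update σ v (1, 0)) v)
      (fun y hy => by rw [e1]; exact h0 y hy)]
    have d1 := finrank_inf_ker (rest B σ v) (con B (Function.update σ v (0, 1)) v)
      ⟨z, hz, by rw [e0, ha]; decide⟩
    have d2 := finrank_inf_ker (rest B σ v) (con B (Function.update σ v (1, 1)) v)
      ⟨z, hz, by rw [e2, ha, hb]; decide⟩
    refine ⟨by omega, by omega, h0, z, hz, by rw [ha]; decide⟩
  · right; right
    have h0 : ∀ y ∈ rest B σ v, (B *ᵥ y) v + y v = 0 := by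
      intro y hy
      have := hiso y hy
      rw [ha, hb] at this
      rw [one_mul, mul_one] at this
      rw [this]
      exact CharTwo.add_self_eq_zero _
    rw [inf_ker_eq (rest B σ v) (con B (Function.update σ v (1, 1)) v)
      (fun y hy => by rw [e2]; exact h0 y hy)]
    have d1 := finrank_inf_ker (rest B σ v) (con B (Function.update σ v (0, 1)) v)
      ⟨z, hz, by rw [e0, ha]; decide⟩
    have d2 := finrank_inf_ker (rest B σ v) (con B (Function.update σ v (1, 0)) v)
      ⟨z, hz, by rw [e1, hb]; decide⟩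
    refine ⟨by omega, by omega, z, hz, by rw [ha, hb]; decide⟩

/-- the skein relation at the value `-2`. -/
lemma skein (B : Matrix κ κ K2) (hB : B.IsSymm) (σ : κ → K2 × K2) (hσ : ∀ w, σ w ≠ (0, 0)) (v : κ) :
    (-2 : ℤ) ^ dm B (Function.update σ v (0, 1)) + (-2) ^ dm B (Function.update σ v (1, 0)) +
      (-2) ^ dm B (Function.update σ v (1, 1)) = 0 := by
  rcases tri B hB σ hσ v with ⟨h1, h2, _⟩ | ⟨h1, h2, _⟩ | ⟨h1, h2, _⟩
  · rw [h1, h2]; ring
  · rw [h1, h2]; ring
  · rw [h1, h2]; ring

/-- parity: for an alternating matrix and states without the third transition. -/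
lemma dm_step (B : Matrix κ κ K2) (hB : B.IsSymm) (hd : ∀ w, B w w = 0) (σ : κ → K2 × K2)
    (hσ : ∀ w, σ w = (0, 1) ∨ σ w = (1, 0)) (v : κ) :
    dm B (Function.update σ v (0, 1)) = dm B (Function.update σ v (1, 0)) + 1 ∨
    dm B (Function.update σ v (1, 0)) = dm B (Function.update σ v (0, 1)) + 1 := by
  have hσ' : ∀ w, σ w ≠ (0, 0) := by
    intro w
    rcases hσ w with h | h <;> rw [h] <;> decide
  rcases tri B hB σ hσ' v with ⟨h1, _⟩ | ⟨h1, _⟩ | ⟨_, _, z, hz, hzv⟩
  · exact Or.inl h1
  · exact Or.inr h1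
  · exfalso
    apply hzv
    rw [mem_rest] at hz
    have h1 : ∀ w, w ≠ v → z w * (B *ᵥ z) w = 0 := by
      intro w hw
      have := hz w hw
      rcases hσ w with h | h
      · rw [h] at this
        simp only [zero_mul, one_mul, zero_add] at this
        rw [this, zero_mul]
      · rw [h] at this
        simp only [zero_mul, one_mul, add_zero] at this
        rw [this, mul_zero]
    have h2 : ∑ w, z w * (B *ᵥ z) w = 0 := by
      have h3 : ∑ w, z w * (B *ᵥ z) w = ∑ p : κ × κ, z p.1 * (B p.1 p.2 * z p.2) := by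
        rw [Fintype.sum_prod_type]
        apply Finset.sum_congr rfl
        intro w _
        rw [Matrix.mulVec, dotProduct, Finset.mul_sum]
      rw [h3]
      apply Finset.sum_involution (fun p _ => (p.2, p.1))
      · rintro ⟨a, b⟩ _
        simp only
        rw [hB.apply a b]
        have := CharTwo.add_self_eq_zero (z a * (B a b * z b))
        linear_combination this
      · rintro ⟨a, b⟩ _ hab h
        simp only [Prod.mk.injEq] at h
        apply hab
        rw [h.1]
        simp [hd]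
      · intro p _; simp
      · intro p _; rfl
    rw [← Finset.add_sum_erase _ _ (Finset.mem_univ v),
      Finset.sum_eq_zero (fun w hw => h1 w (Finset.ne_of_mem_erase hw)), add_zero] at h2
    exact h2

end Pool.Agent.H5.Goddyn
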