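import Mathlib
import Pool.Agent.H5.Goddyn.Skein

set_option linter.unusedSectionVars false

/-!
The signed state sum over the `2^n` states of the first two kinds, its vanishing when no state has
a family of kernel vectors of full support, and its value at `-2` by the skein relation.
-/

namespace Pool.Agent.H5.Goddyn

open Matrix Finset

section Expand

variable {ι : Type*} [DecidableEq ι]

/-- on `U`: second or third kind. -/
def stE (σ : ι → K2 × K2) (U E : Finset ι) : ι → K2 × K2 :=
  fun w => if w ∈ U then (if w ∈ E then (1, 1) else (1, 0)) else σ w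

/-- on `U`: second or first kind. -/
def stT (σ : ι → K2 × K2) (U T : Finset ι) : ι → K2 × K2 :=
  fun w => if w ∈ U then (if w ∈ T then (1, 0) else (0, 1)) else σ w

lemma stE_insert (σ : ι → K2 × K2) (U E : Finset ι) (a : ι) (ha : a ∉ U) (hE : E ⊆ U) :
    stE σ (insert a U) E = stE (Function.update σ a (1, 0)) U E := by
  ext1 w
  by_cases hw : w = a
  · subst hw
    have : w ∉ E := fun h => ha (hE h)
    simp [stE, ha, this]
  · simp [stE, hw]

lemma stE_insert' (σ : ι → K2 × K2) (U E : Finset ι) (a : ι) (ha : a ∉ U) :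
    stE σ (insert a U) (insert a E) = stE (Function.update σ a (1, 1)) U E := by
  ext1 w
  by_cases hw : w = a
  · subst hw
    simp [stE, ha]
  · simp [stE, hw]

lemma stT_insert (σ : ι → K2 × K2) (U T : Finset ι) (a : ι) (ha : a ∉ U) (hT : T ⊆ U) :
    stT σ (insert a U) T = Function.update (stT σ U T) a (0, 1) := by
  ext1 w
  by_cases hw : w = a
  · subst hw
    have : w ∉ T := fun h => ha (hT h)
    simp [stT, this]
  · simp [stT, hw]

lemma stT_insert' (σ : ι → K2 × K2) (U T : Finset ι) (a : ι) :
    stT σ (insert a U) (insert a T) = Function.update (stT σ U T) a (1, 0) := by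
  ext1 w
  by_cases hw : w = a
  · subst hw
    simp [stT]
  · simp [stT, hw]

lemma stT_update (σ : ι → K2 × K2) (U T : Finset ι) (a : ι) (ha : a ∉ U) (p : K2 × K2) :
    stT (Function.update σ a p) U T = Function.update (stT σ U T) a p := by
  ext1 w
  by_cases hw : w = a
  · subst hw
    simp [stT, ha]
  · simp [stT, hw]

lemma expand (F : (ι → K2 × K2) → ℤ)
    (hF : ∀ (σ : ι → K2 × K2) (v : ι), (∀ w, σ w ≠ (0, 0)) →
      F (Function.update σ v (0, 1)) + F (Function.update σ v (1, 0)) +
        F (Function.update σ v (1, 1)) = 0)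
    (U : Finset ι) : ∀ σ : ι → K2 × K2, (∀ w, σ w ≠ (0, 0)) →
    ∑ E ∈ U.powerset, (-1 : ℤ) ^ E.card * F (stE σ U E) =
      ∑ T ∈ U.powerset, 2 ^ T.card * F (stT σ U T) := by
  induction U using Finset.induction_on with
  | empty =>
    intro σ _
    have e1 : stE σ ∅ ∅ = σ := by ext1 w; simp [stE]
    have e2 : stT σ ∅ ∅ = σ := by ext1 w; simp [stT]
    simp [e1, e2]
  | insert a U ha ih =>
    intro σ hσ
    rw [Finset.sum_powerset_insert ha, Finset.sum_powerset_insert ha]
    have hup : ∀ p : K2 × K2, p ≠ (0, 0) → ∀ w, Function.update σ a p w ≠ (0, 0) := by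
      intro p hp w
      by_cases hw : w = a
      · subst hw; simpa using hp
      · simpa [hw] using hσ w
    have h1 : ∑ E ∈ U.powerset, (-1 : ℤ) ^ E.card * F (stE σ (insert a U) E) =
        ∑ T ∈ U.powerset, 2 ^ T.card * F (Function.update (stT σ U T) a (1, 0)) := by
      rw [Finset.sum_congr rfl (fun E hE => by
        rw [stE_insert σ U E a ha (Finset.mem_powerset.mp hE)]), ih _ (hup (1, 0) (by decide))]
      apply Finset.sum_congr rfl
      intro T _
      rw [stT_update σ U T a ha]
    have h2 : ∑ E ∈ U.powerset, (-1 : ℤ) ^ (insert a E).card * F (stE σ (insert a U) (insert a E)) =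
        - ∑ T ∈ U.powerset, 2 ^ T.card * F (Function.update (stT σ U T) a (1, 1)) := by
      have h3 := ih _ (hup (1, 1) (by decide))
      simp only [stT_update σ U _ a ha] at h3
      rw [← h3, ← Finset.sum_neg_distrib]
      apply Finset.sum_congr rfl
      intro E hE
      have : a ∉ E := fun h => ha (Finset.mem_powerset.mp hE h)
      rw [stE_insert' σ U E a ha, Finset.card_insert_of_notMem this]
      ring
    rw [h1, h2, ← Finset.sum_neg_distrib, ← Finset.sum_add_distrib, ← Finset.sum_add_distrib]
    apply Finset.sum_congr rfl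
    intro T hT
    have haT : a ∉ T := fun h => ha (Finset.mem_powerset.mp hT h)
    rw [stT_insert σ U T a ha (Finset.mem_powerset.mp hT), stT_insert' σ U T a,
      Finset.card_insert_of_notMem haT]
    have hσ' : ∀ w, stT σ U T w ≠ (0, 0) := by
      intro w
      unfold stT
      split_ifs
      · decide
      · decide
      · exact hσ w
    have h4 := hF (stT σ U T) a hσ'
    rw [pow_succ]
    linear_combination (-2 ^ T.card : ℤ) * h4

end Expand

variable {ι : Type*} [Fintype ι] [DecidableEq ι]

/-- extension of a state by the constraint `(B z) none = 0` at `none`. -/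
def ex (σ : ι → K2 × K2) : Option ι → K2 × K2 := fun o => o.elim (1, 0) σ

lemma ex_update (σ : ι → K2 × K2) (v : ι) (p : K2 × K2) :
    ex (Function.update σ v p) = Function.update (ex σ) (some v) p := by
  ext1 o
  cases o with
  | none => simp [ex]
  | some w =>
    by_cases hw : w = v
    · subst hw; simp [ex]
    · simp [ex, hw]

/-- the state with the third kind on `E` and the second kind off `E`. -/
def sD (E : Finset ι) : Option ι → K2 × K2 := ex (fun v => if v ∈ E then (1, 1) else (1, 0))

/-- the state with the second kind on `T` and the first kind off `T`. -/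
def sT (T : Finset ι) : Option ι → K2 × K2 := ex (fun v => if v ∈ T then (1, 0) else (0, 1))

theorem expand_all (B : Matrix (Option ι) (Option ι) K2) (hB : B.IsSymm) :
    ∑ E ∈ (univ : Finset ι).powerset, (-1 : ℤ) ^ E.card * (-2) ^ dm B (sD E) =
      ∑ T ∈ (univ : Finset ι).powerset, 2 ^ T.card * (-2) ^ dm B (sT T) := by
  have h := expand (fun σ => (-2 : ℤ) ^ dm B (ex σ)) ?_ (univ : Finset ι) (fun _ => (1, 0)) ?_
  · have e1 : ∀ E : Finset ι, ex (stE (fun _ => (1, 0)) univ E) = sD E := by
      intro E
      unfold sD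
      congr 1
      ext1 w
      simp [stE]
    have e2 : ∀ E : Finset ι, ex (stT (fun _ => (1, 0)) univ E) = sT E := by
      intro E
      unfold sT
      congr 1
      ext1 w
      simp [stT]
    simp only [e1, e2] at h
    exact h
  · intro σ v hσ
    simp only [ex_update]
    apply skein B hB
    intro w
    cases w with
    | none => simp [ex]
    | some w => exact hσ w
  · intro w; decide

/-- the number of `j`-tuples in the subspace of a state. -/
lemma count_tuples (B : Matrix (Option ι) (Option ι) K2) (σ : Option ι → K2 × K2) (j : ℕ)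
    [DecidablePred fun z : Fin j → Option ι → K2 => ∀ i, z i ∈ sp B σ] :
    ((2 : ℤ) ^ j) ^ dm B σ = ∑ z : Fin j → Option ι → K2, if ∀ i, z i ∈ sp B σ then 1 else 0 := by
  classical
  have h1 : (univ.filter (fun z : Option ι → K2 => z ∈ sp B σ)).card = 2 ^ dm B σ := by
    have h2 := Module.card_eq_pow_finrank (K := K2) (V := sp B σ)
    rw [ZMod.card] at h2
    unfold dm
    rw [← h2, Fintype.card_subtype]
  have h3 : (univ.filter (fun z : Fin j → Option ι → K2 => ∀ i, z i ∈ sp B σ)) =
      Fintype.piFinset (fun _ : Fin j => univ.filter (fun z : Option ι → K2 => z ∈ sp B σ)) := by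
    ext z
    simp
  rw [Finset.sum_boole, h3, Fintype.card_piFinset_const, h1]
  push_cast
  rw [← pow_mul, ← pow_mul, mul_comm]

/-- without full support the signed counts vanish. -/
lemma signed_count (B : Matrix (Option ι) (Option ι) K2)
    (hno : ∀ (j : ℕ) (E : Finset ι) (z : Fin j → Option ι → K2), (∀ i, z i ∈ sp B (sD E)) →
      ∃ v : ι, ∀ i, z i (some v) = 0) (j : ℕ) :
    ∑ E ∈ (univ : Finset ι).powerset, (-1 : ℤ) ^ E.card * ((2 : ℤ) ^ j) ^ dm B (sD E) = 0 := by
  classical
  have h1 : ∀ E ∈ (univ : Finset ι).powerset, (-1 : ℤ) ^ E.card * ((2 : ℤ) ^ j) ^ dm B (sD E) =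
      ∑ z : Fin j → Option ι → K2, (-1 : ℤ) ^ E.card * (if ∀ i, z i ∈ sp B (sD E) then 1 else 0) := by
    intro E _
    rw [count_tuples, Finset.mul_sum]
  rw [Finset.sum_congr rfl h1, Finset.sum_comm]
  apply Finset.sum_eq_zero
  intro z _
  by_cases hz : ∃ E : Finset ι, ∀ i, z i ∈ sp B (sD E)
  · obtain ⟨E₀, hE₀⟩ := hz
    obtain ⟨v, hv⟩ := hno j E₀ z hE₀
    have hins : (univ : Finset ι) = insert v (univ.erase v) := by
      rw [Finset.insert_erase (Finset.mem_univ v)]
    rw [hins, Finset.sum_powerset_insert (Finset.notMem_erase v univ), ← Finset.sum_add_distrib]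
    apply Finset.sum_eq_zero
    intro E hE
    have hvE : v ∉ E := fun h => Finset.notMem_erase v univ (Finset.mem_powerset.mp hE h)
    have hiff : (∀ i, z i ∈ sp B (sD (insert v E))) ↔ ∀ i, z i ∈ sp B (sD E) := by
      apply forall_congr'
      intro i
      rw [mem_sp, mem_sp]
      apply forall_congr'
      intro o
      cases o with
      | none => simp [sD, ex]
      | some w =>
        by_cases hw : w = v
        · subst hw
          simp [sD, ex, hv i, hvE]
        · simp [sD, ex, hw]
    rw [Finset.card_insert_of_notMem hvE]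
    simp only [hiff]
    ring
  · push Not at hz
    apply Finset.sum_eq_zero
    intro E _
    rw [if_neg, mul_zero]
    intro h
    obtain ⟨i, hi⟩ := hz E
    exact hi (h i)

open Polynomial in
/-- the value at `-2` vanishes. -/
theorem signed_neg_two (B : Matrix (Option ι) (Option ι) K2)
    (hno : ∀ (j : ℕ) (E : Finset ι) (z : Fin j → Option ι → K2), (∀ i, z i ∈ sp B (sD E)) →
      ∃ v : ι, ∀ i, z i (some v) = 0) :
    ∑ E ∈ (univ : Finset ι).powerset, (-1 : ℤ) ^ E.card * (-2) ^ dm B (sD E) = 0 := by
  let Q : ℤ[X] := ∑ E ∈ (univ : Finset ι).powerset, C ((-1 : ℤ) ^ E.card) * X ^ dm B (sD E)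
  have hQ : ∀ x : ℤ, Q.eval x = ∑ E ∈ (univ : Finset ι).powerset, (-1 : ℤ) ^ E.card * x ^ dm B (sD E) := by
    intro x
    simp only [Q, eval_finsetSum, eval_mul, eval_C, eval_pow, eval_X]
  have hQ0 : Q = 0 := by
    apply Polynomial.eq_zero_of_infinite_isRoot
    apply Set.Infinite.mono (s := Set.range (fun j : ℕ => (2 : ℤ) ^ j))
    · rintro _ ⟨j, rfl⟩
      show Q.eval _ = 0
      rw [hQ]
      exact signed_count B hno j
    · apply Set.infinite_range_of_injective
      intro a b hab
      exact Int.pow_right_injective (by norm_num) hab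
  rw [← hQ, hQ0, eval_zero]

/-- **the exact identity.** -/
theorem exact_identity (B : Matrix (Option ι) (Option ι) K2) (hB : B.IsSymm)
    (hno : ∀ (j : ℕ) (E : Finset ι) (z : Fin j → Option ι → K2), (∀ i, z i ∈ sp B (sD E)) →
      ∃ v : ι, ∀ i, z i (some v) = 0) :
    ∑ T ∈ (univ : Finset ι).powerset, (2 : ℤ) ^ T.card * (-2) ^ dm B (sT T) = 0 := by
  rw [← expand_all B hB]
  exact signed_neg_two B hno

end Pool.Agent.H5.Goddyn
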