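import Mathlib
import Pool.Agent.H5.Goddyn.StateSum

set_option linter.unusedSectionVars false

/-!
The identity modulo 32.
-/

namespace Pool.Agent.H5.Goddyn

open Matrix Finset

variable {ι : Type*} [Fintype ι] [DecidableEq ι]

/-- a symmetric matrix with zero diagonal, bordered by ones. -/
structure Bordered (B : Matrix (Option ι) (Option ι) K2) : Prop where
  symm : B.IsSymm
  diag : ∀ o, B o o = 0
  one : ∀ v : ι, B none (some v) = 1

/-- the number of dimensions of the state of `T`. -/
noncomputable def cT (B : Matrix (Option ι) (Option ι) K2) (T : Finset ι) : ℕ := dm B (sT T)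

lemma cT_step (B : Matrix (Option ι) (Option ι) K2) (hB : Bordered B) (T : Finset ι) (v : ι)
    (hv : v ∉ T) : cT B (insert v T) = cT B T + 1 ∨ cT B T = cT B (insert v T) + 1 := by
  have h := dm_step B hB.symm hB.diag (sT T) ?_ (some v)
  · have e0 : Function.update (sT T) (some v) (0, 1) = sT T := by
      unfold sT
      rw [← ex_update]
      congr 1
      ext1 w
      by_cases hw : w = v
      · subst hw; simp [hv]
      · simp [hw]
    have e1 : Function.update (sT T) (some v) (1, 0) = sT (insert v T) := by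
      unfold sT
      rw [← ex_update]
      congr 1
      ext1 w
      by_cases hw : w = v
      · subst hw; simp
      · simp [hw]
    rw [e0, e1] at h
    exact h.symm
  · intro o
    cases o with
    | none => right; rfl
    | some w =>
      by_cases hw : w ∈ T
      · right; simp [sT, ex, hw]
      · left; simp [sT, ex, hw]

lemma mem_sT (B : Matrix (Option ι) (Option ι) K2) (T : Finset ι) (z : Option ι → K2) :
    z ∈ sp B (sT T) ↔ (B *ᵥ z) none = 0 ∧ (∀ v ∈ T, (B *ᵥ z) (some v) = 0) ∧
      ∀ v ∉ T, z (some v) = 0 := by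
  rw [mem_sp]
  constructor
  · intro h
    refine ⟨by simpa [sT, ex] using h none, ?_, ?_⟩
    · intro v hv
      simpa [sT, ex, hv] using h (some v)
    · intro v hv
      simpa [sT, ex, hv] using h (some v)
  · rintro ⟨h1, h2, h3⟩ o
    cases o with
    | none => simpa [sT, ex] using h1
    | some v =>
      by_cases hv : v ∈ T
      · simpa [sT, ex, hv] using h2 v hv
      · simpa [sT, ex, hv] using h3 v hv

lemma cT_eq_zero_iff (B : Matrix (Option ι) (Option ι) K2) (T : Finset ι) :
    cT B T = 0 ↔ ∀ z ∈ sp B (sT T), z = 0 := by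
  unfold cT dm
  rw [Submodule.finrank_eq_zero, Submodule.eq_bot_iff]

/-- the sums over a vector supported on `T`. -/
lemma mulVec_supp (B : Matrix (Option ι) (Option ι) K2) (T : Finset ι) (z : Option ι → K2)
    (hz : ∀ v ∉ T, z (some v) = 0) (o : Option ι) :
    (B *ᵥ z) o = B o none * z none + ∑ v ∈ T, B o (some v) * z (some v) := by
  rw [Matrix.mulVec, dotProduct, Fintype.sum_option]
  congr 1
  symm
  apply Finset.sum_subset (Finset.subset_univ T)
  intro v _ hv
  rw [hz v hv, mul_zero]

lemma cT_single (B : Matrix (Option ι) (Option ι) K2) (hB : Bordered B) (u : ι) :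
    cT B {u} = 0 := by
  rw [cT_eq_zero_iff]
  intro z hz
  rw [mem_sT] at hz
  obtain ⟨h1, h2, h3⟩ := hz
  have h4 := h2 u (by simp)
  rw [mulVec_supp B {u} z h3] at h1 h4
  rw [Finset.sum_singleton] at h1 h4
  have e1 : B (some u) none = 1 := by rw [hB.symm.apply]; exact hB.one u
  rw [hB.diag, hB.one] at h1
  rw [hB.diag, e1] at h4
  have h5 : z (some u) = 0 := by simpa using h1
  have h6 : z none = 0 := by simpa using h4
  ext o
  cases o with
  | none => simpa using h6
  | some v =>
    by_cases hv : v = u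
    · subst hv; simpa using h5
    · simpa using h3 v (by simpa using hv)

lemma cT_empty (B : Matrix (Option ι) (Option ι) K2) (hB : Bordered B) (u : ι) :
    cT B ∅ = 1 := by
  have h1 := cT_step B hB ∅ u (by simp)
  have h2 := cT_single B hB u
  have h3 : insert u (∅ : Finset ι) = {u} := by simp
  rw [h3, h2] at h1
  omega

lemma cT_card_one (B : Matrix (Option ι) (Option ι) K2) (hB : Bordered B) (T : Finset ι)
    (hT : T.card = 1) : cT B T = 0 := by
  obtain ⟨u, rfl⟩ := Finset.card_eq_one.mp hT
  exact cT_single B hB u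

lemma cT_card_two (B : Matrix (Option ι) (Option ι) K2) (hB : Bordered B) (T : Finset ι)
    (hT : T.card = 2) : cT B T = 1 := by
  obtain ⟨u, v, huv, rfl⟩ := Finset.card_eq_two.mp hT
  have h1 := cT_step B hB {v} u (by simpa using huv)
  rw [cT_single B hB v] at h1
  omega

lemma cT_card_three (B : Matrix (Option ι) (Option ι) K2) (hB : Bordered B) (T : Finset ι)
    (hT : T.card = 3) : cT B T = 0 ∨ cT B T = 2 := by
  obtain ⟨u, v, w, huv, huw, hvw, rfl⟩ := Finset.card_eq_three.mp hT
  have h1 := cT_step B hB {v, w} u (by simp [huv, huw])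
  rw [cT_card_two B hB {v, w} (Finset.card_pair hvw)] at h1
  omega

lemma cT_card_four (B : Matrix (Option ι) (Option ι) K2) (hB : Bordered B) (T : Finset ι)
    (hT : T.card = 4) : cT B T ≠ 0 := by
  obtain ⟨u, S, huS, rfl, hS⟩ := Finset.card_eq_succ.mp hT
  have h1 := cT_step B hB S u huS
  have h2 := cT_card_three B hB S hS
  omega

lemma k2_triple : ∀ a b c p x y z : K2, x + (y + z) = 0 → p + (a * y + b * z) = 0 →
    p + (a * x + c * z) = 0 → p + (b * x + c * y) = 0 → a + b + c = 1 →
    p = 0 ∧ x = 0 ∧ y = 0 ∧ z = 0 := by decide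

/-- the triples: the space is zero iff the sum of the three entries is one. -/
lemma cT_triple (B : Matrix (Option ι) (Option ι) K2) (hB : Bordered B) (u v w : ι)
    (huv : u ≠ v) (huw : u ≠ w) (hvw : v ≠ w) :
    cT B {u, v, w} = 0 ↔
      B (some u) (some v) + B (some u) (some w) + B (some v) (some w) = 1 := by
  have hsum : ∀ (z : Option ι → K2) (o : Option ι), ∑ x ∈ ({u, v, w} : Finset ι), B o (some x) * z (some x) =
      B o (some u) * z (some u) + (B o (some v) * z (some v) + B o (some w) * z (some w)) := by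
    intro z o
    rw [Finset.sum_insert (by simp [huv, huw]), Finset.sum_insert (by simp [hvw]),
      Finset.sum_singleton]
  have e1 : ∀ x : ι, B (some x) none = 1 := by
    intro x; rw [hB.symm.apply]; exact hB.one x
  have eq1 : B (some v) (some u) = B (some u) (some v) := hB.symm.apply _ _
  have eq2 : B (some w) (some u) = B (some u) (some w) := hB.symm.apply _ _
  have eq3 : B (some w) (some v) = B (some v) (some w) := hB.symm.apply _ _
  rw [cT_eq_zero_iff]
  constructor
  · intro h
    by_contra hne
    have hne' : B (some u) (some v) + B (some u) (some w) + B (some v) (some w) = 0 := by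
      have : ∀ a : K2, a ≠ 1 → a = 0 := by decide
      exact this _ hne
    -- a kernel vector
    have key : ∀ a b c : K2, a + b + c = 0 → ∃ x y t : K2, (x ≠ 0 ∨ y ≠ 0 ∨ t ≠ 0) ∧
      x + (y + t) = 0 ∧ (a * y + b * t) = 0 ∧ (a * x + c * t) = 0 ∧ (b * x + c * y) = 0 := by
      decide
    obtain ⟨x, y, t, hxyz, k1, k2, k3, k4⟩ := key _ _ _ hne'
    let z : Option ι → K2 := fun o => o.elim 0 (fun s => if s = u then x else if s = v then y else
      if s = w then t else 0)
    have zn : z none = 0 := rfl
    have zu : z (some u) = x := by simp [z]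
    have zv : z (some v) = y := by simp [z, huv.symm]
    have zw : z (some w) = t := by simp [z, huw.symm, hvw.symm]
    have hz0 : ∀ s ∉ ({u, v, w} : Finset ι), z (some s) = 0 := by
      intro s hs
      simp only [Finset.mem_insert, Finset.mem_singleton, not_or] at hs
      simp [z, hs.1, hs.2.1, hs.2.2]
    have hz : z ∈ sp B (sT {u, v, w}) := by
      rw [mem_sT]
      refine ⟨?_, ?_, hz0⟩
      · rw [mulVec_supp B _ z hz0, hsum, zn, zu, zv, zw, hB.one, hB.one, hB.one]
        linear_combination k1
      · intro s hs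
        rw [mulVec_supp B _ z hz0, hsum, zn, zu, zv, zw]
        simp only [Finset.mem_insert, Finset.mem_singleton] at hs
        rcases hs with rfl | rfl | rfl
        · rw [hB.diag]; linear_combination k2
        · rw [hB.diag, eq1]; linear_combination k3
        · rw [hB.diag, eq2, eq3]; linear_combination k4
    have h0 := h z hz
    have a1 : x = 0 := by rw [← zu, h0]; rfl
    have a2 : y = 0 := by rw [← zv, h0]; rfl
    have a3 : t = 0 := by rw [← zw, h0]; rfl
    rcases hxyz with h' | h' | h'
    · exact h' a1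
    · exact h' a2
    · exact h' a3
  · intro habc z hz
    rw [mem_sT] at hz
    obtain ⟨h1, h2, h3⟩ := hz
    have hu := h2 u (by simp)
    have hv := h2 v (by simp)
    have hw := h2 w (by simp)
    rw [mulVec_supp B _ z h3, hsum] at h1 hu hv hw
    rw [hB.diag, hB.one, hB.one, hB.one] at h1
    rw [hB.diag, e1] at hu hv hw
    rw [eq1] at hv
    rw [eq2, eq3] at hw
    obtain ⟨q1, q2, q3, q4⟩ := k2_triple (B (some u) (some v)) (B (some u) (some w))
      (B (some v) (some w)) (z none) (z (some u)) (z (some v)) (z (some w))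
      (by linear_combination h1) (by linear_combination hu) (by linear_combination hv)
      (by linear_combination hw) habc
    ext o
    cases o with
    | none => simpa using q1
    | some s =>
      by_cases hs : s ∈ ({u, v, w} : Finset ι)
      · simp only [Finset.mem_insert, Finset.mem_singleton] at hs
        rcases hs with rfl | rfl | rfl
        · simpa using q2
        · simpa using q3
        · simpa using q4
      · simpa using h3 s hs

/-- the terms modulo 32. -/
lemma term_mod (B : Matrix (Option ι) (Option ι) K2) (hB : Bordered B) (u : ι) (T : Finset ι) :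
    (32 : ℤ) ∣ (2 : ℤ) ^ T.card * (-2) ^ dm B (sT T) -
      ((if T.card = 0 then -2 else 0) + (if T.card = 1 then 2 else 0) +
        (if T.card = 2 then -8 else 0) + (if T.card = 3 ∧ cT B T = 0 then 8 else 0)) := by
  have hc : dm B (sT T) = cT B T := rfl
  rw [hc]
  rcases Nat.lt_or_ge T.card 5 with h | h
  · interval_cases hT : T.card
    · have : T = ∅ := Finset.card_eq_zero.mp hT
      subst this
      rw [cT_empty B hB u]
      norm_num
    · rw [cT_card_one B hB T hT]
      norm_num
    · rw [cT_card_two B hB T hT]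
      norm_num
    · rcases cT_card_three B hB T hT with h3 | h3
      · rw [h3]; norm_num
      · rw [h3]; norm_num
    · have h4 := cT_card_four B hB T hT
      obtain ⟨k, hk⟩ := Nat.exists_eq_succ_of_ne_zero h4
      rw [hk, pow_succ]
      refine ⟨-(-2) ^ k, ?_⟩
      norm_num
      ring
  · have h1 : ¬ T.card = 0 := by omega
    have h2 : ¬ T.card = 1 := by omega
    have h3 : ¬ T.card = 2 := by omega
    have h4 : ¬ (T.card = 3 ∧ cT B T = 0) := by omega
    rw [if_neg h1, if_neg h2, if_neg h3, if_neg h4]
    obtain ⟨k, hk⟩ := Nat.exists_eq_add_of_le h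
    rw [hk, pow_add]
    refine ⟨2 ^ k * (-2) ^ cT B T, ?_⟩
    norm_num
    ring

/-- **The congruence.** -/
theorem congr_of_no_full (B : Matrix (Option ι) (Option ι) K2) (hB : Bordered B) (u : ι)
    (hno : ∀ (j : ℕ) (E : Finset ι) (z : Fin j → Option ι → K2), (∀ i, z i ∈ sp B (sD E)) →
      ∃ v : ι, ∀ i, z i (some v) = 0) :
    (32 : ℤ) ∣ -2 + 2 * (Fintype.card ι : ℤ) - 8 * ((Fintype.card ι).choose 2 : ℤ) +
      8 * ((univ.filter (fun T : Finset ι => T.card = 3 ∧ cT B T = 0)).card : ℤ) := by
  classical
  have h0 := exact_identity B hB.symm hno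
  have h1 : (32 : ℤ) ∣ ∑ T ∈ (univ : Finset ι).powerset, ((2 : ℤ) ^ T.card * (-2) ^ dm B (sT T) -
      ((if T.card = 0 then -2 else 0) + (if T.card = 1 then 2 else 0) +
        (if T.card = 2 then -8 else 0) + (if T.card = 3 ∧ cT B T = 0 then 8 else 0))) :=
    Finset.dvd_sum (fun T _ => term_mod B hB u T)
  rw [Finset.sum_sub_distrib, h0, zero_sub, dvd_neg] at h1
  simp only [Finset.sum_add_distrib] at h1
  rw [Finset.powerset_univ] at h1
  have hk : ∀ k : ℕ, ∀ c : ℤ, ∑ T : Finset ι, (if T.card = k then c else 0) =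
      c * ((Fintype.card ι).choose k : ℤ) := by
    intro k c
    rw [← Finset.sum_filter, Finset.sum_const, nsmul_eq_mul, mul_comm]
    congr 2
    have : (univ.filter (fun T : Finset ι => T.card = k)) = Finset.powersetCard k univ := by
      ext T
      simp [Finset.mem_powersetCard]
    rw [this, Finset.card_powersetCard, Finset.card_univ]
  have h3 : ∑ T : Finset ι, (if T.card = 3 ∧ cT B T = 0 then (8 : ℤ) else 0) =
      8 * ((univ.filter (fun T : Finset ι => T.card = 3 ∧ cT B T = 0)).card : ℤ) := by
    rw [← Finset.sum_filter, Finset.sum_const, nsmul_eq_mul, mul_comm]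
  rw [hk, hk, hk, h3, Nat.choose_zero_right, Nat.choose_one_right] at h1
  have e : -2 + 2 * (Fintype.card ι : ℤ) - 8 * ((Fintype.card ι).choose 2 : ℤ) +
      8 * ((univ.filter (fun T : Finset ι => T.card = 3 ∧ cT B T = 0)).card : ℤ) =
      -2 * ((1 : ℕ) : ℤ) + 2 * (Fintype.card ι : ℤ) + -8 * ((Fintype.card ι).choose 2 : ℤ) +
      8 * ((univ.filter (fun T : Finset ι => T.card = 3 ∧ cT B T = 0)).card : ℤ) := by
    push_cast; ring
  rw [e]
  exact h1

/-- the arithmetic. -/
lemma arith (n N : ℕ) (h : (32 : ℤ) ∣ -2 + 2 * (n : ℤ) - 8 * (n.choose 2 : ℤ) + 8 * (N : ℤ)) :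
    n % 4 = 1 ∧ ∀ j, n = 4 * j + 1 → N % 4 = j % 4 := by
  have h1 : n % 4 = 1 := by omega
  refine ⟨h1, ?_⟩
  intro j hj
  have h2 : n.choose 2 = (4 * j + 1) * (2 * j) := by
    rw [Nat.choose_two_right, hj]
    have : (4 * j + 1) * (4 * j + 1 - 1) = 2 * ((4 * j + 1) * (2 * j)) := by
      rw [Nat.add_sub_cancel]; ring
    rw [this]
    simp
  rw [h2, hj] at h
  push_cast at h
  obtain ⟨k, hk⟩ := h
  have h3 : (4 : ℤ) * (8 * ((j : ℤ) * j)) = 32 * ((j : ℤ) * j) := by ring
  have h4 : -2 + 2 * (4 * (j : ℤ) + 1) - 8 * ((4 * (j : ℤ) + 1) * (2 * (j : ℤ))) + 8 * (N : ℤ)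
      = 8 * (j : ℤ) - 64 * ((j : ℤ) * j) - 16 * (j : ℤ) + 8 * (N : ℤ) := by ring
  rw [h4] at hk
  omega

end Pool.Agent.H5.Goddyn
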