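import Mathlib
import Pool.Agent.H5.Goddyn.Mod32

set_option linter.unusedSectionVars false

/-!
The identity as a double sum over pairs of vectors which together have full support.
-/

namespace Pool.Agent.H5.Goddyn

open Matrix Finset

/-- the sign of an element of the field with two elements. -/
def chi (a : K2) : ℤ := if a = 0 then 1 else -1

lemma chi_zero : chi 0 = 1 := rfl

lemma chi_add (a b : K2) : chi (a + b) = chi a * chi b := by
  revert a b; decide

lemma chi_sum {α : Type*} (s : Finset α) (f : α → K2) : chi (∑ i ∈ s, f i) = ∏ i ∈ s, chi (f i) := by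
  classical
  induction s using Finset.induction_on with
  | empty => rfl
  | insert a s ha ih => rw [Finset.sum_insert ha, Finset.prod_insert ha, chi_add, ih]

lemma sum_chi_mul (c : K2) : ∑ j : K2, chi (j * c) = if c = 0 then 2 else 0 := by
  revert c; decide

variable {ι : Type*} [Fintype ι] [DecidableEq ι]

/-- vectors supported on `T` and `none`. -/
def Sup (T : Finset ι) : Finset (Option ι → K2) :=
  Fintype.piFinset (fun o => o.elim univ (fun v => if v ∈ T then univ else {0}))

lemma mem_Sup (T : Finset ι) (x : Option ι → K2) : x ∈ Sup T ↔ ∀ v ∉ T, x (some v) = 0 := by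
  unfold Sup
  rw [Fintype.mem_piFinset]
  constructor
  · intro h v hv
    have := h (some v)
    simpa [hv] using this
  · intro h o
    cases o with
    | none => simp
    | some v =>
      by_cases hv : v ∈ T
      · simp [hv]
      · simp [hv, h v hv]

/-- the sum over the second vector. -/
lemma inner_sum (T : Finset ι) (c : Option ι → K2) :
    ∑ y ∈ Sup T, chi (y ⬝ᵥ c) = if (c none = 0 ∧ ∀ v ∈ T, c (some v) = 0) then 2 ^ (T.card + 1) else 0 := by
  have h1 : ∀ y : Option ι → K2, chi (y ⬝ᵥ c) = ∏ o, chi (y o * c o) := by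
    intro y
    unfold dotProduct
    exact chi_sum _ _
  simp only [h1]
  unfold Sup
  rw [← Finset.prod_univ_sum (fun o : Option ι => o.elim univ (fun v => if v ∈ T then univ else {0}))
    (fun o j => chi (j * c o)), Fintype.prod_option]
  have h2 : ∀ v : ι, ∑ j ∈ (Option.elim (some v) (univ : Finset K2) (fun v => if v ∈ T then univ else {0})),
      chi (j * c (some v)) = if v ∈ T then (if c (some v) = 0 then 2 else 0) else 1 := by
    intro v
    by_cases hv : v ∈ T
    · simp only [Option.elim, hv, if_true]
      exact sum_chi_mul _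
    · simp only [Option.elim, hv, if_false, Finset.sum_singleton, zero_mul]
      rfl
  simp only [h2]
  rw [Finset.prod_ite, Finset.prod_const_one, mul_one]
  have h3 : (univ.filter (fun v => v ∈ T)) = T := by ext v; simp
  rw [h3, Finset.prod_ite_zero]
  simp only [Option.elim, Finset.prod_const]
  rw [sum_chi_mul]
  by_cases h4 : c none = 0
  · by_cases h5 : ∀ v ∈ T, c (some v) = 0
    · rw [if_pos h4, if_pos h5, if_pos ⟨h4, h5⟩]; ring
    · rw [if_neg h5, mul_zero, if_neg (fun h : c none = 0 ∧ ∀ v ∈ T, c (some v) = 0 => h5 h.2)]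
  · rw [if_neg h4, zero_mul, if_neg (fun h : c none = 0 ∧ ∀ v ∈ T, c (some v) = 0 => h4 h.1)]

/-- parity of the dimension. -/
lemma cT_parity (B : Matrix (Option ι) (Option ι) K2) (hB : Bordered B) (u : ι) (T : Finset ι) :
    (-1 : ℤ) ^ cT B T = (-1) ^ (T.card + 1) := by
  induction T using Finset.induction_on with
  | empty => rw [cT_empty B hB u]; rfl
  | insert v T hv ih =>
    rw [Finset.card_insert_of_notMem hv]
    rcases cT_step B hB T v hv with h | h
    · rw [h, pow_succ, ih, ← pow_succ]
    · rw [pow_succ, ← ih, h, pow_succ]; ring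

/-- the double sum for one set. -/
lemma double_T (B : Matrix (Option ι) (Option ι) K2) (T : Finset ι) :
    ∑ x ∈ Sup T, ∑ y ∈ Sup T, chi (y ⬝ᵥ (B *ᵥ x)) = 2 ^ (T.card + 1) * 2 ^ cT B T := by
  classical
  simp only [inner_sum]
  rw [← Finset.sum_filter, Finset.sum_const, nsmul_eq_mul, mul_comm]
  congr 1
  have h1 : (univ.filter (fun z : Option ι → K2 => z ∈ sp B (sT T))).card = 2 ^ dm B (sT T) := by
    have h2 := Module.card_eq_pow_finrank (K := K2) (V := sp B (sT T))
    rw [ZMod.card] at h2
    unfold dm
    rw [← h2, Fintype.card_subtype]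
  have h3 : (Sup T).filter (fun x => (B *ᵥ x) none = 0 ∧ ∀ v ∈ T, (B *ᵥ x) (some v) = 0) =
      univ.filter (fun z : Option ι → K2 => z ∈ sp B (sT T)) := by
    ext z
    rw [Finset.mem_filter, Finset.mem_filter, mem_Sup, mem_sT]
    simp only [Finset.mem_univ, true_and]
    constructor
    · rintro ⟨a, b, c⟩; exact ⟨b, c, a⟩
    · rintro ⟨b, c, a⟩; exact ⟨a, b, c⟩
  rw [h3, h1]
  push_cast
  rfl

/-- full support of the pair. -/
def Full (x y : Option ι → K2) : Prop := ∀ v : ι, x (some v) ≠ 0 ∨ y (some v) ≠ 0

instance (x y : Option ι → K2) : Decidable (Full x y) := by unfold Full; infer_instance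

/-- **the exact identity as a double sum.** -/
theorem double_sum (B : Matrix (Option ι) (Option ι) K2) (hB : Bordered B) (u : ι)
    (hno : ∀ (j : ℕ) (E : Finset ι) (z : Fin j → Option ι → K2), (∀ i, z i ∈ sp B (sD E)) →
      ∃ v : ι, ∀ i, z i (some v) = 0) :
    ∑ x : Option ι → K2, ∑ y : Option ι → K2, (if Full x y then chi (y ⬝ᵥ (B *ᵥ x)) else 0) = 0 := by
  classical
  have h0 := exact_identity B hB.symm hno
  have h1 : ∑ T ∈ (univ : Finset ι).powerset, (-1 : ℤ) ^ T.card *
      ∑ x ∈ Sup T, ∑ y ∈ Sup T, chi (y ⬝ᵥ (B *ᵥ x)) = 0 := by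
    have h2 : ∀ T ∈ (univ : Finset ι).powerset, (-1 : ℤ) ^ T.card *
        ∑ x ∈ Sup T, ∑ y ∈ Sup T, chi (y ⬝ᵥ (B *ᵥ x)) =
        -2 * ((2 : ℤ) ^ T.card * (-2) ^ dm B (sT T)) := by
      intro T _
      rw [double_T B T]
      have h3 : (-2 : ℤ) ^ dm B (sT T) = (-1) ^ (T.card + 1) * 2 ^ cT B T := by
        have h4 : (-2 : ℤ) = (-1) * 2 := by norm_num
        rw [h4, mul_pow]
        congr 1
        exact cT_parity B hB u T
      rw [h3, pow_succ, pow_succ]
      ring
    rw [Finset.sum_congr rfl h2, ← Finset.mul_sum, h0, mul_zero]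
  have h2 : ∀ T : Finset ι, ∑ x ∈ Sup T, ∑ y ∈ Sup T, chi (y ⬝ᵥ (B *ᵥ x)) =
      ∑ x : Option ι → K2, ∑ y : Option ι → K2,
        (if x ∈ Sup T ∧ y ∈ Sup T then chi (y ⬝ᵥ (B *ᵥ x)) else 0) := by
    intro T
    rw [← Finset.sum_filter_add_sum_filter_not univ (fun x : Option ι → K2 => x ∈ Sup T)]
    rw [Finset.sum_eq_zero (s := univ.filter (fun x : Option ι → K2 => ¬ x ∈ Sup T)), add_zero]
    · have e1 : univ.filter (fun x : Option ι → K2 => x ∈ Sup T) = Sup T := by ext x; simp
      rw [e1]
      apply Finset.sum_congr rfl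
      intro x hx
      simp only [hx, true_and]
      rw [← Finset.sum_filter, e1]
    · intro x hx
      have hx' := (Finset.mem_filter.mp hx).2
      apply Finset.sum_eq_zero
      intro y _
      rw [if_neg (fun h => hx' h.1)]
  simp only [h2] at h1
  simp only [Finset.mul_sum] at h1
  rw [Finset.sum_comm] at h1
  have h3 : ∀ x : Option ι → K2, ∑ T ∈ (univ : Finset ι).powerset, ∑ y : Option ι → K2,
      (-1 : ℤ) ^ T.card * (if x ∈ Sup T ∧ y ∈ Sup T then chi (y ⬝ᵥ (B *ᵥ x)) else 0) =
      (-1) ^ Fintype.card ι * ∑ y : Option ι → K2, (if Full x y then chi (y ⬝ᵥ (B *ᵥ x)) else 0) := by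
    intro x
    rw [Finset.sum_comm, Finset.mul_sum]
    apply Finset.sum_congr rfl
    intro y _
    by_cases hF : Full x y
    · rw [if_pos hF]
      rw [Finset.sum_eq_single (univ : Finset ι)]
      · rw [if_pos, Finset.card_univ]
        constructor
        · rw [mem_Sup]; intro v hv; exact absurd (Finset.mem_univ v) hv
        · rw [mem_Sup]; intro v hv; exact absurd (Finset.mem_univ v) hv
      · intro T _ hT
        rw [if_neg, mul_zero]
        rintro ⟨hx, hy⟩
        apply hT
        ext v
        simp only [Finset.mem_univ, iff_true]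
        by_contra hv
        rcases hF v with h | h
        · exact h ((mem_Sup T x).mp hx v hv)
        · exact h ((mem_Sup T y).mp hy v hv)
      · intro h
        exact absurd (Finset.mem_powerset.mpr (Finset.Subset.refl _)) h
    · rw [if_neg hF, mul_zero]
      unfold Full at hF
      push Not at hF
      obtain ⟨v, hxv, hyv⟩ := hF
      have hins : (univ : Finset ι) = insert v (univ.erase v) := by
        rw [Finset.insert_erase (Finset.mem_univ v)]
      rw [hins, Finset.sum_powerset_insert (Finset.notMem_erase v univ), ← Finset.sum_add_distrib]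
      apply Finset.sum_eq_zero
      intro T hT
      have hvT : v ∉ T := fun h => Finset.notMem_erase v univ (Finset.mem_powerset.mp hT h)
      have hiff : ∀ w : Option ι → K2, w (some v) = 0 → (w ∈ Sup (insert v T) ↔ w ∈ Sup T) := by
        intro w hw
        rw [mem_Sup, mem_Sup]
        constructor
        · intro h t ht
          by_cases htv : t = v
          · rw [htv]; exact hw
          · exact h t (by simp [htv, ht])
        · intro h t ht
          exact h t (fun h' => ht (Finset.mem_insert_of_mem h'))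
      rw [Finset.card_insert_of_notMem hvT]
      simp only [hiff x hxv, hiff y hyv]
      ring
  simp only [h3] at h1
  rw [← Finset.mul_sum] at h1
  rcases mul_eq_zero.mp h1 with h4 | h4
  · exact absurd h4 (pow_ne_zero _ (by norm_num))
  · exact h4

end Pool.Agent.H5.Goddyn
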