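import Mathlib
import Pool.Agent.H5.Goddyn.Tri

set_option linter.unusedSectionVars false

/-!
The identity for an Eulerian graph (all row sums zero) on an odd number of vertices, and the
congruence modulo 8 for its number of edges.
-/

namespace Pool.Agent.H5.Goddyn

open Matrix Finset

/-! ### elementary symmetric sums of signs -/

section Sym

variable {ι : Type*} [DecidableEq ι]

/-- elementary symmetric sums. -/
def es (w : ι → ℤ) (k : ℕ) (U : Finset ι) : ℤ := ∑ Y ∈ U.powersetCard k, ∏ u ∈ Y, w u

lemma es_insert (w : ι → ℤ) (k : ℕ) (U : Finset ι) (a : ι) (ha : a ∉ U) :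
    es w (k + 1) (insert a U) = es w (k + 1) U + w a * es w k U := by
  unfold es
  rw [Finset.powersetCard_succ_insert ha, Finset.sum_union]
  · congr 1
    rw [Finset.sum_image, Finset.mul_sum]
    · apply Finset.sum_congr rfl
      intro Y hY
      have : a ∉ Y := fun h => ha ((Finset.mem_powersetCard.mp hY).1 h)
      rw [Finset.prod_insert this]
    · intro Y hY Z hZ h
      have h1 : a ∉ Y := fun h => ha ((Finset.mem_powersetCard.mp hY).1 h)
      have h2 : a ∉ Z := fun h => ha ((Finset.mem_powersetCard.mp hZ).1 h)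
      have h3 : (insert a Y).erase a = (insert a Z).erase a := by
        have h' : insert a Y = insert a Z := h
        rw [h']
      rwa [Finset.erase_insert h1, Finset.erase_insert h2] at h3
  · rw [Finset.disjoint_left]
    intro Y hY hY'
    obtain ⟨Z, _, rfl⟩ := Finset.mem_image.mp hY'
    exact ha ((Finset.mem_powersetCard.mp hY).1 (Finset.mem_insert_self a Z))

lemma es_zero (w : ι → ℤ) (U : Finset ι) : es w 0 U = 1 := by
  simp [es]

lemma es_empty (w : ι → ℤ) (k : ℕ) : es w (k + 1) ∅ = 0 := by
  unfold es
  rw [Finset.powersetCard_eq_empty.mpr (by simp)]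
  simp

lemma es_one (w : ι → ℤ) (U : Finset ι) : es w 1 U = ∑ u ∈ U, w u := by
  unfold es
  rw [Finset.powersetCard_one, Finset.sum_map]
  simp

lemma es_two_three (w : ι → ℤ) (hw : ∀ u, w u * w u = 1) (U : Finset ι) :
    2 * es w 2 U = (es w 1 U) ^ 2 - U.card ∧
    6 * es w 3 U = (es w 1 U) ^ 3 - (3 * U.card - 2) * es w 1 U := by
  induction U using Finset.induction_on with
  | empty => simp [es_empty]
  | insert a U ha ih =>
    obtain ⟨h2, h3⟩ := ih
    rw [es_insert w 1 U a ha, es_insert w 2 U a ha, es_insert w 0 U a ha, es_zero,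
      Finset.card_insert_of_notMem ha]
    have hwa := hw a
    push_cast
    constructor
    · linear_combination h2 - hwa
    · linear_combination h3 + 3 * w a * h2 - (w a + 3 * es w 1 U) * hwa

end Sym

variable {ι : Type*} [Fintype ι] [DecidableEq ι]

lemma sum_card_succ (k : ℕ) (φ : ι → Finset ι → ℤ) :
    ∑ S ∈ (univ : Finset ι).powersetCard (k + 1), ∑ v ∈ S, φ v (S.erase v) =
      ∑ v, ∑ Y ∈ (univ.erase v).powersetCard k, φ v Y := by
  rw [Finset.sum_sigma', Finset.sum_sigma']
  apply Finset.sum_bij' (fun p _ => (⟨p.2, p.1.erase p.2⟩ : Σ _ : ι, Finset ι))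
    (fun q _ => (⟨insert q.1 q.2, q.1⟩ : Σ _ : Finset ι, ι))
  · rintro ⟨S, v⟩ hp
    simp only [Finset.mem_sigma, Finset.mem_powersetCard, Finset.mem_univ, true_and] at hp ⊢
    refine ⟨?_, ?_⟩
    · exact Finset.erase_subset_erase v (Finset.subset_univ S)
    · rw [Finset.card_erase_of_mem hp.2, hp.1.2]; rfl
  · rintro ⟨v, Y⟩ hq
    simp only [Finset.mem_sigma, Finset.mem_powersetCard, Finset.mem_univ, true_and] at hq ⊢
    have : v ∉ Y := fun h => Finset.notMem_erase v univ (hq.1 h)
    refine ⟨⟨Finset.subset_univ _, ?_⟩, Finset.mem_insert_self _ _⟩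
    rw [Finset.card_insert_of_notMem this, hq.2]
  · rintro ⟨S, v⟩ hp
    simp only [Finset.mem_sigma] at hp
    simp only [Finset.insert_erase hp.2]
  · rintro ⟨v, Y⟩ hq
    simp only [Finset.mem_sigma, Finset.mem_powersetCard, Finset.mem_univ, true_and] at hq
    have : v ∉ Y := fun h => Finset.notMem_erase v univ (hq.1 h)
    simp only [Finset.erase_insert this]
  · rintro ⟨S, v⟩ _
    rfl

/-- extension of a vector. -/
def mk (a : K2) (f : ι → K2) : Option ι → K2 := fun o => o.elim a f

lemma sum_option (F : (Option ι → K2) → ℤ) :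
    ∑ x : Option ι → K2, F x = ∑ a : K2, ∑ f : ι → K2, F (mk a f) := by
  rw [← Fintype.sum_prod_type']
  apply Fintype.sum_equiv (Equiv.piOptionEquivProd (β := fun _ : Option ι => K2))
  intro x
  congr 1
  ext o
  cases o <;> rfl

/-- the sum over the second vector of a pair of full support. -/
lemma full_inner (x c : Option ι → K2) :
    ∑ y : Option ι → K2, (if Full x y then chi (y ⬝ᵥ c) else 0) =
      (if c none = 0 then 2 else 0) *
        ∏ v : ι, (if x (some v) = 0 then chi (c (some v)) else if c (some v) = 0 then 2 else 0) := by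
  have h1 : ∀ y : Option ι → K2, (if Full x y then chi (y ⬝ᵥ c) else 0) =
      ∏ o : Option ι, (o.elim (chi (y none * c none))
        (fun v => if x (some v) ≠ 0 ∨ y (some v) ≠ 0 then chi (y (some v) * c (some v)) else 0)) := by
    intro y
    rw [Fintype.prod_option]
    simp only [Option.elim]
    have h2 : chi (y ⬝ᵥ c) = chi (y none * c none) * ∏ v : ι, chi (y (some v) * c (some v)) := by
      unfold dotProduct
      rw [chi_sum, Fintype.prod_option]
    rw [h2, Finset.prod_ite_zero]
    by_cases hF : Full x y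
    · rw [if_pos hF, if_pos (fun v _ => hF v)]
    · rw [if_neg hF, if_neg, mul_zero]
      intro h
      exact hF (fun v => h v (Finset.mem_univ v))
  simp only [h1]
  have h3 : ∀ y : Option ι → K2, (∏ o : Option ι, (o.elim (chi (y none * c none))
        (fun v => if x (some v) ≠ 0 ∨ y (some v) ≠ 0 then chi (y (some v) * c (some v)) else 0))) =
      ∏ o : Option ι, (fun (o : Option ι) (j : K2) => (o.elim (chi (j * c none))
        (fun v => if x (some v) ≠ 0 ∨ j ≠ 0 then chi (j * c (some v)) else 0))) o (y o) := by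
    intro y
    apply Finset.prod_congr rfl
    intro o _
    cases o <;> rfl
  simp only [h3]
  have h4 := (Finset.prod_univ_sum (fun _ : Option ι => (univ : Finset K2))
    (fun (o : Option ι) (j : K2) => (o.elim (chi (j * c none))
        (fun v => if x (some v) ≠ 0 ∨ j ≠ 0 then chi (j * c (some v)) else 0)))).symm
  rw [Fintype.piFinset_univ] at h4
  rw [h4, Fintype.prod_option]
  simp only [Option.elim]
  rw [sum_chi_mul]
  congr 1
  apply Finset.prod_congr rfl
  intro v _
  have h5 : ∀ a b : K2, ∑ j : K2, (if a ≠ 0 ∨ j ≠ 0 then chi (j * b) else 0) =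
      if a = 0 then chi b else if b = 0 then 2 else 0 := by decide
  exact h5 _ _

/-- indicator vector. -/
def ind (S : Finset ι) : ι → K2 := fun v => if v ∈ S then 1 else 0

lemma ind_ne (S : Finset ι) (v : ι) : ind S v = 0 ↔ v ∉ S := by
  unfold ind
  by_cases h : v ∈ S <;> simp [h]

lemma sum_ind (F : (ι → K2) → ℤ) : ∑ f : ι → K2, F f = ∑ S ∈ (univ : Finset ι).powerset, F (ind S) := by
  symm
  rw [Finset.powerset_univ]
  refine Finset.sum_bij' (fun S _ => ind S) (fun f _ => univ.filter (fun v => f v ≠ 0))
    (fun S _ => Finset.mem_univ _) (fun f _ => Finset.mem_univ _) ?_ ?_ ?_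
  · intro S _
    ext v
    simp [ind_ne]
  · intro f _
    ext1 v
    unfold ind
    have : ∀ a : K2, (if a ≠ 0 then (1 : K2) else 0) = a := by decide
    simpa using this (f v)
  · intro S _; rfl

/-- the degree of `v` into `S`. -/
def dS (B : Matrix (Option ι) (Option ι) K2) (S : Finset ι) (v : ι) : K2 :=
  ∑ u ∈ S, B (some v) (some u)

lemma mulVec_mk_some (B : Matrix (Option ι) (Option ι) K2) (hB : Bordered B) (a : K2)
    (S : Finset ι) (v : ι) : (B *ᵥ (mk a (ind S))) (some v) = a + dS B S v := by
  rw [Matrix.mulVec, dotProduct, Fintype.sum_option]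
  have e1 : B (some v) none = 1 := by rw [hB.symm.apply]; exact hB.one v
  simp only [mk, Option.elim, e1, one_mul]
  congr 1
  unfold dS ind
  simp only [mul_ite, mul_one, mul_zero]
  rw [← Finset.sum_filter]
  congr 1
  ext u; simp

lemma mulVec_mk_none (B : Matrix (Option ι) (Option ι) K2) (hB : Bordered B) (a : K2)
    (S : Finset ι) : (B *ᵥ (mk a (ind S))) none = (S.card : K2) := by
  rw [Matrix.mulVec, dotProduct, Fintype.sum_option, hB.diag, zero_mul, zero_add]
  simp only [mk, Option.elim, hB.one, one_mul]
  unfold ind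
  rw [Finset.sum_ite_mem, Finset.univ_inter, Finset.sum_const, nsmul_eq_mul, mul_one]

/-- difference of the indicators of even and of odd induced subgraphs. -/
def FF (B : Matrix (Option ι) (Option ι) K2) (S : Finset ι) : ℤ :=
  (if ∀ v ∈ S, dS B S v = 0 then 1 else 0) - (if ∀ v ∈ S, dS B S v = 1 then 1 else 0)

/-- **the identity for Eulerian graphs.** -/
theorem euler_identity (B : Matrix (Option ι) (Option ι) K2) (hB : Bordered B)
    (hE : ∀ v : ι, ∑ u, B (some v) (some u) = 0) (hn : (Fintype.card ι : K2) = 1) (u : ι)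
    (hno : ∀ (j : ℕ) (E : Finset ι) (z : Fin j → Option ι → K2), (∀ i, z i ∈ sp B (sD E)) →
      ∃ v : ι, ∀ i, z i (some v) = 0) :
    ∑ S ∈ (univ : Finset ι).powerset, (if (S.card : K2) = 0 then 2 ^ S.card * FF B S else 0) = 0 := by
  classical
  have h0 := double_sum B hB u hno
  simp only [full_inner] at h0
  rw [sum_option] at h0
  simp only [sum_ind] at h0
  have h1 : ∀ (a : K2) (S : Finset ι),
      (if (B *ᵥ (mk a (ind S))) none = 0 then (2 : ℤ) else 0) *
        ∏ v : ι, (if (mk a (ind S)) (some v) = 0 then chi ((B *ᵥ (mk a (ind S))) (some v)) else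
          if (B *ᵥ (mk a (ind S))) (some v) = 0 then 2 else 0) =
      2 * (if (S.card : K2) = 0 then 2 ^ S.card * (chi a * (if ∀ v ∈ S, dS B S v = a then 1 else 0))
        else 0) := by
    intro a S
    rw [mulVec_mk_none B hB]
    by_cases hS : (S.card : K2) = 0
    · rw [if_pos hS, if_pos hS]
      congr 1
      simp only [mulVec_mk_some B hB]
      have h2 : ∀ v : ι, (if (mk a (ind S)) (some v) = 0 then chi (a + dS B S v) else
          if a + dS B S v = 0 then 2 else 0) =
          if v ∈ S then (if a + dS B S v = 0 then (2 : ℤ) else 0) else chi (a + dS B S v) := by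
        intro v
        have h3 : (mk a (ind S)) (some v) = 0 ↔ v ∉ S := ind_ne S v
        by_cases hv : v ∈ S
        · rw [if_neg (fun h => (h3.mp h) hv), if_pos hv]
        · rw [if_pos (h3.mpr hv), if_neg hv]
      simp only [h2]
      rw [Finset.prod_ite]
      have e1 : (univ.filter (fun v => v ∈ S)) = S := by ext v; simp
      rw [e1, Finset.prod_ite_zero]
      have e2 : ∀ b c : K2, b + c = 0 ↔ c = b := by decide
      simp only [e2]
      by_cases hc : ∀ v ∈ S, dS B S v = a
      · rw [if_pos hc, if_pos hc, Finset.prod_const, mul_one]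
        congr 1
        rw [← chi_sum]
        congr 1
        have h4 : ∑ v, (a + dS B S v) = a := by
          rw [Finset.sum_add_distrib, Finset.sum_const, Finset.card_univ, nsmul_eq_mul, hn, one_mul]
          unfold dS
          rw [Finset.sum_comm, Finset.sum_eq_zero, add_zero]
          intro w _
          rw [← hE w]
          apply Finset.sum_congr rfl
          intro v _
          exact hB.symm.apply _ _
        have h5 : ∑ v ∈ S, (a + dS B S v) = 0 := by
          apply Finset.sum_eq_zero
          intro v hv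
          rw [hc v hv]
          exact CharTwo.add_self_eq_zero _
        have h6 := Finset.sum_filter_add_sum_filter_not univ (fun v => v ∈ S) (fun v => a + dS B S v)
        rw [e1, h5, zero_add, h4] at h6
        exact h6
      · rw [if_neg hc, if_neg hc]; ring
    · rw [if_neg hS, if_neg hS]; ring
  simp only [h1] at h0
  rw [Finset.sum_comm] at h0
  have h7 : ∀ S : Finset ι, ∑ a : K2, 2 * (if (S.card : K2) = 0 then (2 : ℤ) ^ S.card * (chi a * (if ∀ v ∈ S, dS B S v = a then 1 else 0))
        else 0) = 2 * (if (S.card : K2) = 0 then 2 ^ S.card * FF B S else 0) := by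
    intro S
    have e3 : ∀ F : K2 → ℤ, ∑ a : K2, F a = F 0 + F 1 := by
      intro F
      exact Fin.sum_univ_two F
    rw [e3]
    have c0 : chi 0 = 1 := rfl
    have c1 : chi 1 = -1 := rfl
    rw [c0, c1]
    unfold FF
    by_cases hS : (S.card : K2) = 0
    · rw [if_pos hS, if_pos hS, if_pos hS]; ring
    · rw [if_neg hS, if_neg hS, if_neg hS]; ring
  simp only [h7] at h0
  rw [← Finset.mul_sum] at h0
  rcases mul_eq_zero.mp h0 with h8 | h8
  · norm_num at h8
  · exact h8

end Pool.Agent.H5.Goddyn
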