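import Mathlib
import Pool.Agent.H5.Goddyn.Euler

set_option linter.unusedSectionVars false

/-!
The congruence modulo 8 for the number of edges of the Eulerian graph.
-/

namespace Pool.Agent.H5.Goddyn

open Matrix Finset

variable {ι : Type*} [Fintype ι] [DecidableEq ι]

/-- the sign of a pair. -/
def sg2 (B : Matrix (Option ι) (Option ι) K2) (v u : ι) : ℤ := chi (B (some v) (some u))

lemma sg2_sq (B : Matrix (Option ι) (Option ι) K2) (v u : ι) : sg2 B v u * sg2 B v u = 1 := by
  unfold sg2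
  have : ∀ a : K2, chi a * chi a = 1 := by decide
  exact this _

lemma FF_empty (B : Matrix (Option ι) (Option ι) K2) : FF B ∅ = 0 := by
  simp [FF]

lemma chi_dS (B : Matrix (Option ι) (Option ι) K2) (hB : Bordered B) (S : Finset ι) (v : ι) (hv : v ∈ S) :
    chi (dS B S v) = ∏ u ∈ S.erase v, sg2 B v u := by
  unfold dS sg2
  rw [← Finset.add_sum_erase _ _ hv, hB.diag, zero_add, chi_sum]

lemma FF_two (B : Matrix (Option ι) (Option ι) K2) (hB : Bordered B) (S : Finset ι)
    (hS : S.card = 2) :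
    4 * FF B S = 2 * ∑ v ∈ S, ∏ u ∈ S.erase v, sg2 B v u := by
  have h0 : ∑ v ∈ S, ∏ u ∈ S.erase v, sg2 B v u = ∑ v ∈ S, chi (dS B S v) :=
    Finset.sum_congr rfl (fun v hv => (chi_dS B hB S v hv).symm)
  rw [h0]
  obtain ⟨a, b, hab, rfl⟩ := Finset.card_eq_two.mp hS
  have d1 : dS B {a, b} a = B (some a) (some b) := by
    unfold dS
    rw [Finset.sum_pair hab, hB.diag, zero_add]
  have d2 : dS B {a, b} b = B (some a) (some b) := by
    unfold dS
    rw [Finset.sum_pair hab, hB.diag, add_zero]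
    exact hB.symm.apply _ _
  unfold FF
  rw [Finset.sum_pair hab]
  simp only [Finset.mem_insert, Finset.mem_singleton, forall_eq_or_imp, forall_eq]
  rw [d1, d2]
  have : ∀ p : K2, (4 : ℤ) * ((if p = 0 ∧ p = 0 then 1 else 0) - (if p = 1 ∧ p = 1 then 1 else 0)) =
      2 * (chi p + chi p) := by decide
  exact this _

lemma FF_four (B : Matrix (Option ι) (Option ι) K2) (hB : Bordered B) (S : Finset ι)
    (hS : S.card = 4) :
    16 * FF B S = 4 * ∑ v ∈ S, ∏ u ∈ S.erase v, sg2 B v u := by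
  have h0 : ∑ v ∈ S, ∏ u ∈ S.erase v, sg2 B v u = ∑ v ∈ S, chi (dS B S v) :=
    Finset.sum_congr rfl (fun v hv => (chi_dS B hB S v hv).symm)
  rw [h0]
  obtain ⟨a, T, haT, rfl, hT⟩ := Finset.card_eq_succ.mp hS
  obtain ⟨b, c, d, hbc, hbd, hcd, rfl⟩ := Finset.card_eq_three.mp hT
  simp only [Finset.mem_insert, Finset.mem_singleton, not_or] at haT
  obtain ⟨hab, hac, had⟩ := haT
  have hsum : ∀ F : ι → K2, ∑ x ∈ ({a, b, c, d} : Finset ι), F x = F a + (F b + (F c + F d)) := by
    intro F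
    rw [Finset.sum_insert (by simp [hab, hac, had]), Finset.sum_insert (by simp [hbc, hbd]),
      Finset.sum_insert (by simp [hcd]), Finset.sum_singleton]
  have hsumZ : ∀ F : ι → ℤ, ∑ x ∈ ({a, b, c, d} : Finset ι), F x = F a + (F b + (F c + F d)) := by
    intro F
    rw [Finset.sum_insert (by simp [hab, hac, had]), Finset.sum_insert (by simp [hbc, hbd]),
      Finset.sum_insert (by simp [hcd]), Finset.sum_singleton]
  have s1 : B (some b) (some a) = B (some a) (some b) := hB.symm.apply _ _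
  have s2 : B (some c) (some a) = B (some a) (some c) := hB.symm.apply _ _
  have s3 : B (some d) (some a) = B (some a) (some d) := hB.symm.apply _ _
  have s4 : B (some c) (some b) = B (some b) (some c) := hB.symm.apply _ _
  have s5 : B (some d) (some b) = B (some b) (some d) := hB.symm.apply _ _
  have s6 : B (some d) (some c) = B (some c) (some d) := hB.symm.apply _ _
  have key : ∀ ab ac ad bc bd cd : K2,
      (16 : ℤ) * ((if (0 + (ab + (ac + ad)) = 0 ∧ ab + (0 + (bc + bd)) = 0 ∧
          ac + (bc + (0 + cd)) = 0 ∧ ad + (bd + (cd + 0)) = 0) then 1 else 0) -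
        (if (0 + (ab + (ac + ad)) = 1 ∧ ab + (0 + (bc + bd)) = 1 ∧
          ac + (bc + (0 + cd)) = 1 ∧ ad + (bd + (cd + 0)) = 1) then 1 else 0)) =
      4 * (chi (0 + (ab + (ac + ad))) + (chi (ab + (0 + (bc + bd))) +
        (chi (ac + (bc + (0 + cd))) + chi (ad + (bd + (cd + 0)))))) := by decide
  unfold FF
  rw [hsumZ]
  simp only [Finset.mem_insert, Finset.mem_singleton, forall_eq_or_imp, forall_eq]
  unfold dS
  simp only [hsum, hB.diag, s1, s2, s3, s4, s5, s6]
  exact key _ _ _ _ _ _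

/-- **The congruence modulo 8.** -/
theorem euler_congr (B : Matrix (Option ι) (Option ι) K2) (hB : Bordered B)
    (hE : ∀ v : ι, ∑ u, B (some v) (some u) = 0) (u : ι)
    (hno : ∀ (j : ℕ) (E : Finset ι) (z : Fin j → Option ι → K2), (∀ i, z i ∈ sp B (sD E)) →
      ∃ v : ι, ∀ i, z i (some v) = 0) (j : ℕ) (hj : Fintype.card ι = 4 * j + 1) :
    (16 : ℤ) ∣ ∑ v : ι, ((univ.filter (fun w => B (some v) (some w) = 1)).card : ℤ) -
      2 * ((4 * j + 1) * j) := by
  classical
  have hn : (Fintype.card ι : K2) = 1 := by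
    rw [hj]
    push_cast
    have : (4 : K2) = 0 := by decide
    rw [this]; ring
  have h0 := euler_identity B hB hE hn u hno
  -- modulo 64
  have h1 : ∀ S ∈ (univ : Finset ι).powerset, (64 : ℤ) ∣
      (if (S.card : K2) = 0 then 2 ^ S.card * FF B S else 0) -
      ((if S.card = 2 then 2 * ∑ v ∈ S, ∏ u ∈ S.erase v, sg2 B v u else 0) +
        (if S.card = 4 then 4 * ∑ v ∈ S, ∏ u ∈ S.erase v, sg2 B v u else 0)) := by
    intro S _
    by_cases hp : (S.card : K2) = 0
    · rw [if_pos hp]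
      have hev : S.card % 2 = 0 := by
        have := (ZMod.natCast_eq_zero_iff _ _).mp hp
        omega
      rcases Nat.lt_or_ge S.card 6 with h | h
      · have : S.card = 0 ∨ S.card = 2 ∨ S.card = 4 := by omega
        rcases this with h' | h' | h'
        · have : S = ∅ := Finset.card_eq_zero.mp h'
          subst this
          simp [FF_empty]
        · rw [if_pos h', if_neg (by omega), h']
          have := FF_two B hB S h'
          refine ⟨0, ?_⟩
          rw [← this]; ring
        · rw [if_neg (by omega), if_pos h', h']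
          have := FF_four B hB S h'
          refine ⟨0, ?_⟩
          rw [← this]; ring
      · rw [if_neg (by omega), if_neg (by omega)]
        obtain ⟨k, hk⟩ := Nat.exists_eq_add_of_le h
        rw [hk, pow_add]
        refine ⟨2 ^ k * FF B S, ?_⟩
        ring
    · have hodd : S.card % 2 ≠ 0 := by
        intro h
        apply hp
        rw [ZMod.natCast_eq_zero_iff]
        omega
      rw [if_neg hp, if_neg (by omega), if_neg (by omega)]
      simp
  have h2 := Finset.dvd_sum h1
  rw [Finset.sum_sub_distrib, h0, zero_sub, dvd_neg, Finset.sum_add_distrib] at h2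
  have hk : ∀ (k : ℕ) (F : Finset ι → ℤ), ∑ S ∈ (univ : Finset ι).powerset, (if S.card = k then F S else 0) =
      ∑ S ∈ (univ : Finset ι).powersetCard k, F S := by
    intro k F
    rw [← Finset.sum_filter, Finset.powersetCard_eq_filter]
  rw [hk 2 (fun S => 2 * ∑ v ∈ S, ∏ u ∈ S.erase v, sg2 B v u),
    hk 4 (fun S => 4 * ∑ v ∈ S, ∏ u ∈ S.erase v, sg2 B v u), ← Finset.mul_sum, ← Finset.mul_sum,
    sum_card_succ 1 (fun v Y => ∏ u ∈ Y, sg2 B v u), sum_card_succ 3 (fun v Y => ∏ u ∈ Y, sg2 B v u)] at h2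
  have h3 : (64 : ℤ) ∣ ∑ v : ι, (2 * es (sg2 B v) 1 (univ.erase v) + 4 * es (sg2 B v) 3 (univ.erase v)) := by
    rw [Finset.sum_add_distrib, ← Finset.mul_sum, ← Finset.mul_sum]
    exact h2
  -- degrees
  have hdeg : ∀ v : ι, ∃ a : ℤ, ((univ.filter (fun w => B (some v) (some w) = 1)).card : ℤ) = 2 * a ∧
      es (sg2 B v) 1 (univ.erase v) = 4 * (j : ℤ) - 4 * a := by
    intro v
    have e1 : ((univ.filter (fun w => B (some v) (some w) = 1)).card : K2) = 0 := by
      rw [← hE v, Finset.card_filter]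
      push_cast
      apply Finset.sum_congr rfl
      intro w _
      have : ∀ a : K2, (if a = 1 then (1 : K2) else 0) = a := by decide
      exact this _
    have e2 := (ZMod.natCast_eq_zero_iff _ _).mp e1
    obtain ⟨a, ha⟩ := e2
    refine ⟨a, by rw [ha]; push_cast; ring, ?_⟩
    rw [es_one]
    have e3 : ∑ w : ι, sg2 B v w = (Fintype.card ι : ℤ) -
        2 * ((univ.filter (fun w => B (some v) (some w) = 1)).card : ℤ) := by
      have e4 : ∀ w : ι, sg2 B v w = 1 - 2 * (if B (some v) (some w) = 1 then 1 else 0) := by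
        intro w
        unfold sg2
        have : ∀ a : K2, chi a = 1 - 2 * (if a = 1 then 1 else 0) := by decide
        exact this _
      simp only [e4]
      rw [Finset.sum_sub_distrib, ← Finset.mul_sum, Finset.sum_boole, Finset.sum_const,
        Finset.card_univ, nsmul_eq_mul, mul_one]
    have e5 : sg2 B v v = 1 := by
      unfold sg2
      rw [hB.diag]; rfl
    rw [← Finset.add_sum_erase _ _ (Finset.mem_univ v), e5, hj, ha] at e3
    push_cast at e3
    linarith
  choose a ha1 ha2 using hdeg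
  have h4 : ∀ v : ι, 3 * (2 * es (sg2 B v) 1 (univ.erase v) + 4 * es (sg2 B v) 3 (univ.erase v)) =
      40 * (j - a v) - 96 * (j * (j - a v)) + 128 * (j - a v) ^ 3 := by
    intro v
    have h5 := (es_two_three (sg2 B v) (sg2_sq B v) (univ.erase v)).2
    have h6 : (((univ : Finset ι).erase v).card : ℤ) = 4 * j := by
      rw [Finset.card_erase_of_mem (Finset.mem_univ v), Finset.card_univ, hj]
      push_cast; ring
    rw [h6, ha2 v] at h5
    rw [ha2 v]
    linear_combination 2 * h5
  have h7 : (64 : ℤ) ∣ ∑ v : ι, (40 * ((j : ℤ) - a v) - 96 * ((j : ℤ) * (j - a v)) + 128 * (j - a v) ^ 3) := by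
    rw [← Finset.sum_congr rfl (fun v _ => h4 v), ← Finset.mul_sum]
    exact Dvd.dvd.mul_left h3 3
  have h8 : ∑ v : ι, (40 * ((j : ℤ) - a v) - 96 * ((j : ℤ) * (j - a v)) + 128 * (j - a v) ^ 3) =
      (∑ v : ι, ((j : ℤ) - a v)) * (40 - 96 * j) + 64 * (2 * ∑ v : ι, ((j : ℤ) - a v) ^ 3) := by
    rw [Finset.sum_add_distrib, Finset.sum_sub_distrib]
    simp only [← Finset.mul_sum]
    ring
  rw [h8] at h7
  have h9 : (64 : ℤ) ∣ (∑ v : ι, ((j : ℤ) - a v)) * (40 - 96 * j) :=
    (Int.dvd_iff_dvd_of_dvd_add (dvd_trans h7 (dvd_refl _)) |>.mpr (Dvd.intro _ rfl))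
  have h10 : (8 : ℤ) ∣ ∑ v : ι, ((j : ℤ) - a v) := by
    have e1 : (∑ v : ι, ((j : ℤ) - a v)) * (40 - 96 * j) = 8 * ((∑ v : ι, ((j : ℤ) - a v)) * (5 - 12 * j)) := by
      ring
    rw [e1] at h9
    have h11 : (8 : ℤ) ∣ (∑ v : ι, ((j : ℤ) - a v)) * (5 - 12 * j) := by
      obtain ⟨k, hk⟩ := h9
      exact ⟨k, by linarith⟩
    have hcop : IsCoprime (8 : ℤ) (5 - 12 * j) := by
      refine ⟨-3 + 15 * j - 18 * j ^ 2, 5 - 12 * j, ?_⟩
      ring
    exact hcop.dvd_of_dvd_mul_right h11
  have h12 : ∑ v : ι, ((j : ℤ) - a v) = (4 * j + 1) * j - ∑ v : ι, a v := by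
    rw [Finset.sum_sub_distrib, Finset.sum_const, Finset.card_univ, hj, nsmul_eq_mul]
    push_cast; ring
  rw [h12] at h10
  have h13 : ∑ v : ι, ((univ.filter (fun w => B (some v) (some w) = 1)).card : ℤ) = 2 * ∑ v : ι, a v := by
    rw [Finset.mul_sum]
    exact Finset.sum_congr rfl (fun v _ => ha1 v)
  rw [h13]
  obtain ⟨k, hk⟩ := h10
  exact ⟨-k, by linarith⟩

end Pool.Agent.H5.Goddyn
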