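import Mathlib
import Pool.Agent.H5.Goddyn.Euler

set_option linter.unusedSectionVars false

/-!
The identity as a signed count of the partitions into three odd classes.
-/

namespace Pool.Agent.H5.Goddyn

open Matrix Finset

variable {ι : Type*} [Fintype ι] [DecidableEq ι]

/-- the two vectors of a colouring with three colours. -/
def vx (κ : ι → Fin 3) : ι → K2 := fun v => if κ v = 1 then 0 else 1

def vy (κ : ι → Fin 3) : ι → K2 := fun v => if κ v = 0 then 0 else 1

/-- the colour of a nonzero vector. -/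
def cl (a b : K2) : Fin 3 := if b = 0 then 0 else if a = 0 then 1 else 2

lemma sum_pairs_full (F : (ι → K2) → (ι → K2) → ℤ) :
    ∑ f : ι → K2, ∑ g : ι → K2, (if ∀ v, f v ≠ 0 ∨ g v ≠ 0 then F f g else 0) =
      ∑ κ : ι → Fin 3, F (vx κ) (vy κ) := by
  classical
  rw [← Finset.sum_product', Finset.univ_product_univ, ← Finset.sum_filter]
  refine Finset.sum_bij' (fun p _ => fun v => cl (p.1 v) (p.2 v)) (fun κ _ => (vx κ, vy κ))
    (fun _ _ => Finset.mem_univ _) ?_ ?_ ?_ ?_
  · intro κ _
    simp only [Finset.mem_filter, Finset.mem_univ, true_and]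
    intro v
    have : ∀ c : Fin 3, ((if c = 1 then (0 : K2) else 1) ≠ 0 ∨ (if c = 0 then (0 : K2) else 1) ≠ 0) := by
      decide
    exact this (κ v)
  · intro p hp
    simp only [Finset.mem_filter, Finset.mem_univ, true_and] at hp
    have h1 : ∀ a b : K2, (a ≠ 0 ∨ b ≠ 0) →
        ((if cl a b = 1 then (0 : K2) else 1) = a ∧ (if cl a b = 0 then (0 : K2) else 1) = b) := by
      unfold cl
      decide
    refine Prod.ext ?_ ?_
    · funext v
      exact (h1 _ _ (hp v)).1
    · funext v
      exact (h1 _ _ (hp v)).2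
  · intro κ _
    funext v
    have : ∀ c : Fin 3, cl (if c = 1 then (0 : K2) else 1) (if c = 0 then (0 : K2) else 1) = c := by
      unfold cl
      decide
    exact this (κ v)
  · intro p hp
    simp only [Finset.mem_filter, Finset.mem_univ, true_and] at hp
    have h1 : ∀ a b : K2, (a ≠ 0 ∨ b ≠ 0) →
        ((if cl a b = 1 then (0 : K2) else 1) = a ∧ (if cl a b = 0 then (0 : K2) else 1) = b) := by
      unfold cl
      decide
    have e1 : vx (fun v => cl (p.1 v) (p.2 v)) = p.1 := by
      funext v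
      exact (h1 _ _ (hp v)).1
    have e2 : vy (fun v => cl (p.1 v) (p.2 v)) = p.2 := by
      funext v
      exact (h1 _ _ (hp v)).2
    rw [e1, e2]

/-- the bilinear form in coordinates. -/
lemma form_mk (B : Matrix (Option ι) (Option ι) K2) (hB : Bordered B) (a b : K2) (f g : ι → K2) :
    (mk b g) ⬝ᵥ (B *ᵥ (mk a f)) = b * (∑ v, f v) + a * (∑ v, g v) +
      ∑ v, ∑ u, g v * B (some v) (some u) * f u := by
  have e1 : ∀ v : ι, B (some v) none = 1 := fun v => by rw [hB.symm.apply]; exact hB.one v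
  have h1 : (B *ᵥ (mk a f)) none = ∑ v, f v := by
    rw [Matrix.mulVec, dotProduct, Fintype.sum_option, hB.diag, zero_mul, zero_add]
    simp only [mk, Option.elim, hB.one, one_mul]
  have h2 : ∀ v, (B *ᵥ (mk a f)) (some v) = a + ∑ u, B (some v) (some u) * f u := by
    intro v
    rw [Matrix.mulVec, dotProduct, Fintype.sum_option]
    simp only [mk, Option.elim, e1, one_mul]
  rw [dotProduct, Fintype.sum_option]
  simp only [h1, h2, mk, Option.elim]
  have h3 : ∑ v, g v * (a + ∑ u, B (some v) (some u) * f u) =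
      a * (∑ v, g v) + ∑ v, ∑ u, g v * B (some v) (some u) * f u := by
    rw [Finset.mul_sum, ← Finset.sum_add_distrib]
    apply Finset.sum_congr rfl
    intro v _
    rw [mul_add, Finset.mul_sum]
    congr 1
    · ring
    · apply Finset.sum_congr rfl
      intro u _
      ring
  rw [h3]
  ring

lemma sum_two (F : K2 → ℤ) : ∑ a : K2, F a = F 0 + F 1 := Fin.sum_univ_two F

lemma chi_natCast (k : ℕ) : chi (k : K2) = (-1) ^ k := by
  induction k with
  | zero => rfl
  | succ k ih =>
    push_cast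
    rw [chi_add, ih, pow_succ]
    congr 1

variable [LinearOrder ι]

lemma sum_sum_lt {A : Type*} [AddCommMonoid A] (F : ι → ι → A) :
    ∑ v, ∑ u, F v u = ∑ v, F v v + ∑ p ∈ (univ : Finset (ι × ι)).filter (fun p => p.1 < p.2),
      (F p.2 p.1 + F p.1 p.2) := by
  classical
  rw [← Finset.sum_product', Finset.univ_product_univ, Finset.sum_add_distrib]
  have h1 := Finset.sum_filter_add_sum_filter_not (univ : Finset (ι × ι)) (fun p => p.1 < p.2)
    (fun p => F p.1 p.2)
  have h2 := Finset.sum_filter_add_sum_filter_not ((univ : Finset (ι × ι)).filter (fun p => ¬ p.1 < p.2))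
    (fun p => p.1 = p.2) (fun p => F p.1 p.2)
  rw [← h1, ← h2, Finset.filter_filter, Finset.filter_filter]
  have h3 : ∑ p ∈ (univ : Finset (ι × ι)).filter (fun p => ¬ p.1 < p.2 ∧ p.1 = p.2), F p.1 p.2 =
      ∑ v, F v v := by
    refine Finset.sum_bij' (fun p _ => p.1) (fun v _ => (v, v)) (fun _ _ => Finset.mem_univ _)
      ?_ ?_ (fun _ _ => rfl) ?_
    · intro v _; simp
    · intro p hp
      simp only [Finset.mem_filter, Finset.mem_univ, true_and] at hp
      exact Prod.ext rfl hp.2
    · intro p hp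
      simp only [Finset.mem_filter, Finset.mem_univ, true_and] at hp
      simp only [hp.2]
  have h4 : ∑ p ∈ (univ : Finset (ι × ι)).filter (fun p => ¬ p.1 < p.2 ∧ ¬ p.1 = p.2), F p.1 p.2 =
      ∑ p ∈ (univ : Finset (ι × ι)).filter (fun p => p.1 < p.2), F p.2 p.1 := by
    refine Finset.sum_bij' (fun p _ => (p.2, p.1)) (fun p _ => (p.2, p.1)) ?_ ?_
      (fun _ _ => rfl) (fun _ _ => rfl) (fun _ _ => rfl)
    · intro p hp
      simp only [Finset.mem_filter, Finset.mem_univ, true_and, not_lt] at hp ⊢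
      exact lt_of_le_of_ne hp.1 (fun h => hp.2 h.symm)
    · intro p hp
      simp only [Finset.mem_filter, Finset.mem_univ, true_and, not_lt] at hp ⊢
      exact ⟨hp.le, hp.ne'⟩
  rw [h3, h4]
  abel

/-- the pairs joined in the graph of `B` and of different colours. -/
def cutE (B : Matrix (Option ι) (Option ι) K2) (κ : ι → Fin 3) : Finset (ι × ι) :=
  univ.filter (fun p => p.1 < p.2 ∧ κ p.1 ≠ κ p.2 ∧ B (some p.1) (some p.2) = 1)

lemma form_cut (B : Matrix (Option ι) (Option ι) K2) (hB : Bordered B) (κ : ι → Fin 3) :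
    ∑ v, ∑ u, vy κ v * B (some v) (some u) * vx κ u = ((cutE B κ).card : K2) := by
  classical
  rw [sum_sum_lt (fun v u => vy κ v * B (some v) (some u) * vx κ u)]
  simp only [hB.diag, mul_zero, zero_mul, Finset.sum_const_zero, zero_add]
  unfold cutE
  rw [Finset.card_filter]
  push_cast
  rw [Finset.sum_filter]
  apply Finset.sum_congr rfl
  intro p _
  by_cases hp : p.1 < p.2
  · rw [if_pos hp]
    have h1 : B (some p.2) (some p.1) = B (some p.1) (some p.2) := hB.symm.apply _ _
    rw [h1]
    simp only [hp, true_and]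
    unfold vx vy
    have key : ∀ (a b : Fin 3) (t : K2),
        (if b = 0 then (0 : K2) else 1) * t * (if a = 1 then (0 : K2) else 1) +
          (if a = 0 then (0 : K2) else 1) * t * (if b = 1 then (0 : K2) else 1) =
          if a ≠ b ∧ t = 1 then 1 else 0 := by decide
    exact key _ _ _
  · rw [if_neg hp]
    simp only [hp, false_and, if_false]

lemma odd_classes (hn : (Fintype.card ι : K2) = 1) (κ : ι → Fin 3) :
    (∑ v, vx κ v = 0 ∧ ∑ v, vy κ v = 0) ↔ ∀ c : Fin 3, Odd (univ.filter (fun v => κ v = c)).card := by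
  classical
  have h1 : ∀ c : Fin 3, Odd (univ.filter (fun v => κ v = c)).card ↔
      ((univ.filter (fun v => κ v = c)).card : K2) = 1 := fun c => (ZMod.natCast_eq_one_iff_odd).symm
  simp only [h1]
  have h2 : ∀ c : Fin 3, ((univ.filter (fun v => κ v = c)).card : K2) = ∑ v, if κ v = c then 1 else 0 := by
    intro c
    rw [Finset.card_filter]; push_cast; rfl
  simp only [h2]
  have hone : ∑ _v : ι, (1 : K2) = 1 := by
    rw [Finset.sum_const, Finset.card_univ, nsmul_eq_mul, hn, one_mul]
  have h3 : ∑ v, vx κ v = 1 + ∑ v, (if κ v = 1 then (1 : K2) else 0) := by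
    have h3' : ∑ v, vx κ v = ∑ _v : ι, (1 : K2) + ∑ v, (if κ v = 1 then (1 : K2) else 0) := by
      rw [← Finset.sum_add_distrib]
      apply Finset.sum_congr rfl
      intro v _
      unfold vx
      have : ∀ c : Fin 3, (if c = 1 then (0 : K2) else 1) = 1 + (if c = 1 then 1 else 0) := by decide
      exact this _
    rw [h3', hone]
  have h4 : ∑ v, vy κ v = 1 + ∑ v, (if κ v = 0 then (1 : K2) else 0) := by
    have h4' : ∑ v, vy κ v = ∑ _v : ι, (1 : K2) + ∑ v, (if κ v = 0 then (1 : K2) else 0) := by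
      rw [← Finset.sum_add_distrib]
      apply Finset.sum_congr rfl
      intro v _
      unfold vy
      have : ∀ c : Fin 3, (if c = 0 then (0 : K2) else 1) = 1 + (if c = 0 then 1 else 0) := by decide
      exact this _
    rw [h4', hone]
  have h5 : (1 : K2) = (∑ v, if κ v = 0 then (1 : K2) else 0) + (∑ v, if κ v = 1 then (1 : K2) else 0) +
      (∑ v, if κ v = 2 then (1 : K2) else 0) := by
    rw [← Finset.sum_add_distrib, ← Finset.sum_add_distrib]
    refine hone.symm.trans ?_
    apply Finset.sum_congr rfl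
    intro v _
    have : ∀ c : Fin 3, (1 : K2) = (if c = 0 then 1 else 0) + (if c = 1 then 1 else 0) +
      (if c = 2 then 1 else 0) := by decide
    exact this _
  rw [h3, h4]
  have h6 : ∀ p q r : K2, 1 = p + q + r → ((1 + q = 0 ∧ 1 + p = 0) ↔ (p = 1 ∧ q = 1 ∧ r = 1)) := by
    decide
  rw [h6 _ _ _ h5]
  constructor
  · rintro ⟨a, b, c⟩ d
    fin_cases d
    · exact a
    · exact b
    · exact c
  · intro h
    exact ⟨h 0, h 1, h 2⟩

/-- **the signed count of the partitions into three odd classes.** -/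
theorem tri_identity (B : Matrix (Option ι) (Option ι) K2) (hB : Bordered B)
    (hn : (Fintype.card ι : K2) = 1) (u : ι)
    (hno : ∀ (j : ℕ) (E : Finset ι) (z : Fin j → Option ι → K2), (∀ i, z i ∈ sp B (sD E)) →
      ∃ v : ι, ∀ i, z i (some v) = 0) :
    (univ.filter (fun κ : ι → Fin 3 => (∀ c : Fin 3, Odd (univ.filter (fun v => κ v = c)).card) ∧
      Even (cutE B κ).card)).card =
    (univ.filter (fun κ : ι → Fin 3 => (∀ c : Fin 3, Odd (univ.filter (fun v => κ v = c)).card) ∧
      Odd (cutE B κ).card)).card := by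
  classical
  have h0 := double_sum B hB u hno
  rw [sum_option] at h0
  have h1 : ∀ (a : K2) (f : ι → K2), ∑ y : Option ι → K2, (if Full (mk a f) y then
      chi (y ⬝ᵥ (B *ᵥ (mk a f))) else 0) =
      ∑ b : K2, ∑ g : ι → K2, (if ∀ v, f v ≠ 0 ∨ g v ≠ 0 then
        chi (b * (∑ v, f v) + a * (∑ v, g v) + ∑ v, ∑ u, g v * B (some v) (some u) * f u) else 0) := by
    intro a f
    rw [sum_option]
    apply Finset.sum_congr rfl
    intro b _
    apply Finset.sum_congr rfl
    intro g _
    rw [form_mk B hB]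
    rfl
  simp only [h1] at h0
  have h2 : ∑ a : K2, ∑ f : ι → K2, ∑ b : K2, ∑ g : ι → K2, (if ∀ v, f v ≠ 0 ∨ g v ≠ 0 then
        chi (b * (∑ v, f v) + a * (∑ v, g v) + ∑ v, ∑ u, g v * B (some v) (some u) * f u) else 0) =
      ∑ f : ι → K2, ∑ g : ι → K2, (if ∀ v, f v ≠ 0 ∨ g v ≠ 0 then
        (if (∑ v, f v = 0 ∧ ∑ v, g v = 0) then
          4 * chi (∑ v, ∑ u, g v * B (some v) (some u) * f u) else 0) else 0) := by
    rw [Finset.sum_comm]
    apply Finset.sum_congr rfl
    intro f _
    rw [sum_two, sum_two, sum_two, ← Finset.sum_add_distrib, ← Finset.sum_add_distrib,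
      ← Finset.sum_add_distrib]
    apply Finset.sum_congr rfl
    intro g _
    by_cases hfg : ∀ v, f v ≠ 0 ∨ g v ≠ 0
    · simp only [if_pos hfg]
      generalize ∑ v, f v = s
      generalize ∑ v, g v = t
      generalize ∑ v, ∑ u, g v * B (some v) (some u) * f u = q
      revert s t q
      decide
    · simp only [if_neg hfg]
      rfl
  rw [h2, sum_pairs_full (fun f g => if (∑ v, f v = 0 ∧ ∑ v, g v = 0) then
          4 * chi (∑ v, ∑ u, g v * B (some v) (some u) * f u) else 0)] at h0
  simp only [odd_classes hn, form_cut B hB, chi_natCast] at h0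
  rw [← Finset.sum_filter, ← Finset.mul_sum] at h0
  have h3 : ∑ κ ∈ univ.filter (fun κ : ι → Fin 3 => ∀ c : Fin 3, Odd (univ.filter (fun v => κ v = c)).card),
      (-1 : ℤ) ^ (cutE B κ).card = 0 := by
    rcases mul_eq_zero.mp h0 with h | h
    · norm_num at h
    · exact h
  rw [← Finset.sum_filter_add_sum_filter_not _ (fun κ => Even (cutE B κ).card)] at h3
  rw [Finset.filter_filter, Finset.filter_filter] at h3
  have h4 : ∀ κ ∈ univ.filter (fun κ : ι → Fin 3 => (∀ c : Fin 3, Odd (univ.filter (fun v => κ v = c)).card) ∧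
      Even (cutE B κ).card), (-1 : ℤ) ^ (cutE B κ).card = 1 := by
    intro κ hκ
    exact Even.neg_one_pow (Finset.mem_filter.mp hκ).2.2
  have h5 : ∀ κ ∈ univ.filter (fun κ : ι → Fin 3 => (∀ c : Fin 3, Odd (univ.filter (fun v => κ v = c)).card) ∧
      ¬ Even (cutE B κ).card), (-1 : ℤ) ^ (cutE B κ).card = -1 := by
    intro κ hκ
    exact Odd.neg_one_pow (Nat.not_even_iff_odd.mp (Finset.mem_filter.mp hκ).2.2)
  rw [Finset.sum_congr rfl h4, Finset.sum_congr rfl h5] at h3
  simp only [Finset.sum_const, nsmul_eq_mul, mul_one, mul_neg] at h3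
  simp only [← Nat.not_even_iff_odd (n := (cutE B _).card)]
  have h6 : ((univ.filter (fun κ : ι → Fin 3 => (∀ c : Fin 3, Odd (univ.filter (fun v => κ v = c)).card) ∧
      Even (cutE B κ).card)).card : ℤ) = ((univ.filter (fun κ : ι → Fin 3 =>
      (∀ c : Fin 3, Odd (univ.filter (fun v => κ v = c)).card) ∧ ¬ Even (cutE B κ).card)).card : ℤ) := by
    linarith
  exact_mod_cast h6

end Pool.Agent.H5.Goddyn
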