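import Mathlib
import Pool.Agent.H5.Goddyn.Euler2
import Pool.Agent.H5.Goddyn.Split

set_option linter.unusedSimpArgs false
set_option linter.unusedSectionVars false

/-!
The matrices of a permutation: the inversion matrix and the Eulerian matrix.
-/

namespace Pool.Agent.H5.Goddyn

open Matrix Finset

variable {n : ℕ} (f : Fin n → Fin n)

/-- the bordered inversion matrix. -/
def IM : Matrix (Option (Fin n)) (Option (Fin n)) K2 := fun a b =>
  match a, b with
  | some k, some m => (if m < k then 1 else 0) + (if f m < f k then 1 else 0)
  | some _, none => 1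
  | none, some _ => 1
  | none, none => 0

lemma IM_lt (_hf : Function.Injective f) (k m : Fin n) (h : k < m) :
    IM f (some k) (some m) = if f m < f k then 1 else 0 := by
  simp only [IM]
  rw [if_neg (not_lt.mpr h.le), zero_add]

lemma IM_gt (hf : Function.Injective f) (k m : Fin n) (h : k < m) :
    IM f (some m) (some k) = if f m < f k then 1 else 0 := by
  simp only [IM]
  rw [if_pos h]
  have h3 : f k ≠ f m := fun h' => (ne_of_lt h) (hf h')
  rcases lt_or_gt_of_ne h3 with h4 | h4
  · rw [if_pos h4, if_neg (not_lt.mpr h4.le)]; decide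
  · rw [if_neg (not_lt.mpr h4.le), if_pos h4]; decide

lemma IM_bordered (hf : Function.Injective f) : Bordered (IM f) := by
  refine ⟨?_, ?_, ?_⟩
  · ext a b
    rw [Matrix.transpose_apply]
    cases a with
    | none => cases b <;> rfl
    | some k =>
      cases b with
      | none => rfl
      | some m =>
        rcases lt_trichotomy k m with h | h | h
        · rw [IM_lt f hf k m h, IM_gt f hf k m h]
        · subst h; rfl
        · rw [IM_lt f hf m k h, IM_gt f hf m k h]
  · intro a
    cases a with
    | none => rfl
    | some k => simp [IM]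
  · intro v; rfl

lemma IM_none (z : Option (Fin n) → K2) : ((IM f).mulVec z) none = ∑ m, z (some m) := by
  simp [Matrix.mulVec, dotProduct, IM, Fintype.sum_option]

lemma IM_some (z : Option (Fin n) → K2) (k : Fin n) : ((IM f).mulVec z) (some k) =
    z none + (∑ m with m < k, z (some m) + ∑ m with f m < f k, z (some m)) := by
  simp only [Matrix.mulVec, dotProduct, IM, Fintype.sum_option, one_mul, add_mul,
    Finset.sum_add_distrib, ite_mul, zero_mul, Finset.sum_filter]

/-- the sum of the two positions. -/
def ep (k : Fin n) : K2 := (k.val : K2) + ((f k).val : K2)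

/-- the bordered Eulerian matrix. -/
def EM : Matrix (Option (Fin n)) (Option (Fin n)) K2 := fun a b =>
  match a, b with
  | some k, some m => IM f (some k) (some m) + (if k = m then 0 else ep f k + ep f m)
  | some _, none => 1
  | none, some _ => 1
  | none, none => 0

lemma EM_bordered (hf : Function.Injective f) : Bordered (EM f) := by
  have hI := IM_bordered f hf
  refine ⟨?_, ?_, ?_⟩
  · ext a b
    rw [Matrix.transpose_apply]
    cases a with
    | none => cases b <;> rfl
    | some k =>
      cases b with
      | none => rfl
      | some m =>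
        simp only [EM]
        rw [hI.symm.apply]
        congr 1
        by_cases h : k = m
        · rw [if_pos h, if_pos h.symm]
        · rw [if_neg h, if_neg (fun h' => h h'.symm), add_comm]
  · intro a
    cases a with
    | none => rfl
    | some k => simp [EM, hI.diag]
  · intro v; rfl

lemma sum_lt_val (k : Fin n) : ∑ m : Fin n, (if m < k then (1 : K2) else 0) = (k.val : K2) := by
  rw [Finset.sum_boole]
  congr 1
  have : (univ.filter (fun m : Fin n => m < k)) = Finset.Iio k := by ext m; simp
  rw [this, Fin.card_Iio]

lemma sum_ep (hf : Function.Injective f) : ∑ m, ep f m = 0 := by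
  have hb : Function.Bijective f := Finite.injective_iff_bijective.mp hf
  unfold ep
  rw [Finset.sum_add_distrib, Function.Bijective.sum_comp hb (fun m : Fin n => (m.val : K2))]
  exact CharTwo.add_self_eq_zero _

lemma EM_row (hf : Function.Injective f) (hn : (n : K2) = 1) (k : Fin n) :
    ∑ m, EM f (some k) (some m) = 0 := by
  have hb : Function.Bijective f := Finite.injective_iff_bijective.mp hf
  simp only [EM, IM]
  rw [Finset.sum_add_distrib, Finset.sum_add_distrib, sum_lt_val,
    Function.Bijective.sum_comp hb (fun m : Fin n => if m < f k then (1 : K2) else 0), sum_lt_val]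
  have h1 : ∑ m, (if k = m then (0 : K2) else ep f k + ep f m) = ∑ m, (ep f k + ep f m) := by
    apply Finset.sum_congr rfl
    intro m _
    by_cases h : k = m
    · rw [if_pos h, h]
      exact (CharTwo.add_self_eq_zero _).symm
    · rw [if_neg h]
  rw [h1, Finset.sum_add_distrib, sum_ep f hf, Finset.sum_const, Finset.card_univ,
    Fintype.card_fin, nsmul_eq_mul, hn, one_mul, add_zero]
  exact CharTwo.add_self_eq_zero _

/-- the change of the coordinate `none`. -/
def sh (z : Option (Fin n) → K2) : Option (Fin n) → K2 :=
  fun o => o.elim (z none + ∑ m, ep f m * z (some m)) (fun m => z (some m))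

lemma EM_none (z : Option (Fin n) → K2) : ((EM f).mulVec z) none = ∑ m, z (some m) := by
  simp [Matrix.mulVec, dotProduct, EM, Fintype.sum_option]

lemma EM_some (z : Option (Fin n) → K2) (k : Fin n) : ((EM f).mulVec z) (some k) =
    ((IM f).mulVec (sh f z)) (some k) + ep f k * ∑ m, z (some m) := by
  simp only [Matrix.mulVec, dotProduct, Fintype.sum_option]
  have e1 : EM f (some k) none = 1 := rfl
  have e2 : IM f (some k) none = 1 := rfl
  have e3 : sh f z none = z none + ∑ m, ep f m * z (some m) := rfl
  have e4 : ∀ m, sh f z (some m) = z (some m) := fun _ => rfl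
  simp only [e1, e2, e3, e4, one_mul]
  have h1 : ∑ m, EM f (some k) (some m) * z (some m) = ∑ m, IM f (some k) (some m) * z (some m) +
      ∑ m, (ep f k + ep f m) * z (some m) := by
    rw [← Finset.sum_add_distrib]
    apply Finset.sum_congr rfl
    intro m _
    simp only [EM]
    rw [add_mul]
    congr 1
    by_cases h : k = m
    · rw [if_pos h, h, CharTwo.add_self_eq_zero]
    · rw [if_neg h]
  rw [h1]
  simp only [add_mul, Finset.sum_add_distrib, ← Finset.mul_sum]
  ring

lemma EM_hno (hno : ∀ (j : ℕ) (E : Finset (Fin n)) (z : Fin j → Option (Fin n) → K2),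
      (∀ i, z i ∈ sp (IM f) (sD E)) → ∃ v : Fin n, ∀ i, z i (some v) = 0) :
    ∀ (j : ℕ) (E : Finset (Fin n)) (z : Fin j → Option (Fin n) → K2),
      (∀ i, z i ∈ sp (EM f) (sD E)) → ∃ v : Fin n, ∀ i, z i (some v) = 0 := by
  intro j E z hz
  apply hno j E (fun i => sh f (z i))
  intro i
  rw [mem_sp]
  have h1 := (mem_sp _ _ _).mp (hz i)
  have h2 : ∑ m, z i (some m) = 0 := by
    have h3 := h1 none
    simp only [sD, ex, Option.elim, one_mul, zero_mul, add_zero] at h3
    rw [EM_none] at h3
    exact h3
  intro o
  have h4 := h1 o
  cases o with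
  | none =>
    simp only [sD, ex, Option.elim, one_mul, zero_mul, add_zero]
    rw [IM_none]
    exact h2
  | some k =>
    rw [EM_some, h2, mul_zero, add_zero] at h4
    exact h4

lemma EM_odd (hf : Function.Injective f) (hn : (n : K2) = 1) (i k : Fin n) (h : i < k) :
    EM f (some i) (some k) = 1 ↔ Odd ((k - i).val + (f k - f i).val) := by
  rw [← ZMod.natCast_eq_one_iff_odd]
  have h1 : EM f (some i) (some k) = (((k - i).val + (f k - f i).val : ℕ) : K2) := by
    simp only [EM]
    rw [IM_lt f hf i k h, if_neg h.ne, Fin.sub_val_of_le h.le]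
    unfold ep
    have h3 : f i ≠ f k := fun h' => h.ne (hf h')
    rcases lt_or_gt_of_ne h3 with h4 | h4
    · rw [if_neg (not_lt.mpr h4.le), Fin.sub_val_of_le h4.le, Nat.cast_add,
        Nat.cast_sub (Fin.le_def.mp h.le), Nat.cast_sub (Fin.le_def.mp h4.le)]
      generalize ((i : ℕ) : K2) = a
      generalize ((k : ℕ) : K2) = b
      generalize ((f i : ℕ) : K2) = c
      generalize ((f k : ℕ) : K2) = d
      revert a b c d
      decide
    · rw [if_pos h4, Fin.coe_sub_iff_lt.mpr h4, Nat.cast_add,
        Nat.cast_sub (Fin.le_def.mp h.le), Nat.cast_sub (by omega), Nat.cast_add, hn]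
      generalize ((i : ℕ) : K2) = a
      generalize ((k : ℕ) : K2) = b
      generalize ((f i : ℕ) : K2) = c
      generalize ((f k : ℕ) : K2) = d
      revert a b c d
      decide
  rw [h1]

end Pool.Agent.H5.Goddyn
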