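import Mathlib
import Pool.Agent.H5.Goddyn.EulerPerm
import Pool.Agent.H5.Goddyn.Perm

set_option linter.unusedSimpArgs false
set_option linter.unusedSectionVars false

/-!
Permutation graphs without a faithful circuit cover.
-/

namespace Pool.Agent.H5.Goddyn

open Matrix Finset

/-- The colourings of the indices with three colours for which every colour is used an odd number
of times. -/
def OddClasses {n : ℕ} (κ : Fin n → Fin 3) : Prop :=
  ∀ c : Fin 3, Odd (Finset.univ.filter (fun i => κ i = c)).card

instance {n : ℕ} (κ : Fin n → Fin 3) : Decidable (OddClasses κ) := by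
  unfold OddClasses; infer_instance

/-- The inversions of `π` between indices of different colours. -/
def mixedInversions {n : ℕ} (π : Fin n → Fin n) (κ : Fin n → Fin 3) : Finset (Fin n × Fin n) :=
  Finset.univ.filter (fun p => p.1 < p.2 ∧ π p.2 < π p.1 ∧ κ p.1 ≠ κ p.2)

/-- The twisted pairs: the pairs `i < k` for which the distance from `i` forward to `k` and the
distance from `π i` forward to `π k`, in the cyclic order modulo `n`, have different parities. -/
def twistedPairs {n : ℕ} (π : Fin n → Fin n) : Finset (Fin n × Fin n) :=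
  Finset.univ.filter (fun p => p.1 < p.2 ∧ Odd ((p.2 - p.1).val + (π p.2 - π p.1).val))

lemma cutE_IM {n : ℕ} (f : Fin n → Fin n) (hf : Function.Injective f) (κ : Fin n → Fin 3) :
    cutE (IM f) κ = mixedInversions f κ := by
  ext p
  simp only [cutE, mixedInversions, Finset.mem_filter, Finset.mem_univ, true_and]
  constructor
  · rintro ⟨h1, h2, h3⟩
    rw [IM_lt f hf _ _ h1] at h3
    refine ⟨h1, ?_, h2⟩
    by_contra h4
    rw [if_neg h4] at h3
    exact absurd h3 (by decide)
  · rintro ⟨h1, h2, h3⟩
    refine ⟨h1, h3, ?_⟩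
    rw [IM_lt f hf _ _ h1, if_pos h2]

lemma sum_deg {n : ℕ} (f : Fin n → Fin n) (hf : Function.Injective f) (hn : (n : K2) = 1) :
    ∑ v : Fin n, ((univ.filter (fun w => EM f (some v) (some w) = 1)).card : ℤ) =
      2 * (twistedPairs f).card := by
  have hB := EM_bordered f hf
  have h1 : ∀ v : Fin n, ((univ.filter (fun w => EM f (some v) (some w) = 1)).card : ℤ) =
      ∑ w, if EM f (some v) (some w) = 1 then 1 else 0 := by
    intro v
    rw [Finset.card_filter]
    push_cast
    rfl
  simp only [h1]
  rw [sum_sum_lt (fun v w => if EM f (some v) (some w) = 1 then (1 : ℤ) else 0)]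
  have h2 : ∀ v, (if EM f (some v) (some v) = 1 then (1 : ℤ) else 0) = 0 := by
    intro v
    rw [hB.diag, if_neg (by decide)]
  simp only [h2, Finset.sum_const_zero, zero_add]
  have h3 : ∀ p ∈ (univ : Finset (Fin n × Fin n)).filter (fun p => p.1 < p.2),
      ((if EM f (some p.2) (some p.1) = 1 then (1 : ℤ) else 0) +
        (if EM f (some p.1) (some p.2) = 1 then 1 else 0)) =
      2 * (if Odd ((p.2 - p.1).val + (f p.2 - f p.1).val) then 1 else 0) := by
    intro p hp
    have hlt := (Finset.mem_filter.mp hp).2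
    have e1 : EM f (some p.2) (some p.1) = EM f (some p.1) (some p.2) := hB.symm.apply _ _
    rw [e1]
    simp only [EM_odd f hf hn _ _ hlt]
    ring
  rw [Finset.sum_congr rfl h3, ← Finset.mul_sum, ← Finset.sum_filter, Finset.filter_filter]
  unfold twistedPairs
  simp

/-- The theorem on permutations. -/
theorem perm_core {n : ℕ} (f : Fin n → Fin n) (hf : Function.Injective f) (u : Fin n)
    (hno : ∀ (j : ℕ) (E : Finset (Fin n)) (z : Fin j → Option (Fin n) → K2),
      (∀ i, z i ∈ sp (IM f) (sD E)) → ∃ v : Fin n, ∀ i, z i (some v) = 0) :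
    n % 4 = 1 ∧
    (univ.filter (fun κ : Fin n → Fin 3 => OddClasses κ ∧ Even (mixedInversions f κ).card)).card =
      (univ.filter (fun κ : Fin n → Fin 3 => OddClasses κ ∧ Odd (mixedInversions f κ).card)).card ∧
    (∀ j, n = 4 * j + 1 → (twistedPairs f).card ≡ (4 * j + 1) * j [MOD 8]) := by
  classical
  have hB := IM_bordered f hf
  have h1 := congr_of_no_full (IM f) hB u hno
  rw [Fintype.card_fin] at h1
  obtain ⟨h2, _⟩ := arith n _ h1
  have hn : (n : K2) = 1 := by
    rw [ZMod.natCast_eq_one_iff_odd, Nat.odd_iff]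
    omega
  refine ⟨h2, ?_, ?_⟩
  · have h3 := tri_identity (IM f) hB (by rw [Fintype.card_fin]; exact hn) u hno
    simp only [cutE_IM f hf] at h3
    have e1 : univ.filter (fun κ : Fin n → Fin 3 => OddClasses κ ∧ Even (mixedInversions f κ).card) =
        univ.filter (fun κ : Fin n → Fin 3 => (∀ c : Fin 3, Odd (univ.filter (fun i => κ i = c)).card) ∧
          Even (mixedInversions f κ).card) := by
      ext κ
      simp only [Finset.mem_filter]
      exact Iff.rfl
    have e2 : univ.filter (fun κ : Fin n → Fin 3 => OddClasses κ ∧ Odd (mixedInversions f κ).card) =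
        univ.filter (fun κ : Fin n → Fin 3 => (∀ c : Fin 3, Odd (univ.filter (fun i => κ i = c)).card) ∧
          Odd (mixedInversions f κ).card) := by
      ext κ
      simp only [Finset.mem_filter]
      exact Iff.rfl
    rw [e1, e2]
    exact h3
  · intro j hj
    have h4 := euler_congr (EM f) (EM_bordered f hf) (EM_row f hf hn) u (EM_hno f hno) j
      (by rw [Fintype.card_fin]; exact hj)
    rw [sum_deg f hf hn] at h4
    have h5 : (8 : ℤ) ∣ ((twistedPairs f).card : ℤ) - (4 * j + 1) * j := by
      obtain ⟨k, hk⟩ := h4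
      exact ⟨k, by linarith⟩
    have h6 : (((4 * j + 1) * j : ℕ) : ℤ) ≡ ((twistedPairs f).card : ℤ) [ZMOD 8] := by
      rw [Int.modEq_iff_dvd]
      push_cast
      exact h5
    exact ((Int.natCast_modEq_iff).mp h6).symm

open SimpleGraph

variable {V : Type*} {G : SimpleGraph V} {M C₁ C₂ : G.Subgraph} {n : ℕ} {c c' : ℕ → V}

/-- the condition on full-support families, from the graph. -/
theorem hno_of_graph [Finite V] (h : IsPermutationGraph G M C₁ C₂)
    (hno : ¬ HasFaithfulCircuitCover G (wt M)) (hc : IsEnum C₁ n c)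
    (hc' : IsEnum C₂ n c') (f : Fin n → Fin n) (hf : ∀ i : Fin n, M.Adj (c i) (c' (f i))) :
    ∀ (j : ℕ) (E : Finset (Fin n)) (z : Fin j → Option (Fin n) → K2),
      (∀ i, z i ∈ sp (IM f) (sD E)) → ∃ v : Fin n, ∀ i, z i (some v) = 0 := by
  classical
  intro j E z hz
  by_contra hcon
  push Not at hcon
  apply hno
  have hself : ∀ x : Fin j → ZMod 2, x + x = 0 := by
    intro x; ext i; exact CharTwo.add_self_eq_zero _
  refine cover_of_delta h hc hc' f hf hself (fun m i => z i (some m)) (fun i => z i none) ?_ ?_ ?_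
  · intro m hm
    obtain ⟨i, hi⟩ := hcon m
    exact hi (congrFun hm i)
  · ext i
    have h1 := (mem_sp _ _ _).mp (hz i) none
    simp only [sD, ex, Option.elim, one_mul, zero_mul, add_zero] at h1
    rw [IM_none] at h1
    rw [Finset.sum_apply]
    exact h1
  · intro k
    by_cases hk : k ∈ E
    · right
      ext i
      have h1 := (mem_sp _ _ _).mp (hz i) (some k)
      simp only [sD, ex, Option.elim, hk, if_true, one_mul] at h1
      rw [IM_some] at h1
      simp only [Pi.add_apply, Finset.sum_apply]
      have h2 := CharTwo.add_self_eq_zero (∑ m with m < k, z i (some m))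
      have h3 := CharTwo.add_self_eq_zero (z i (some k))
      linear_combination h1 - h2 - h3
    · left
      ext i
      have h1 := (mem_sp _ _ _).mp (hz i) (some k)
      simp only [sD, ex, Option.elim, hk, if_false, one_mul, zero_mul, add_zero] at h1
      rw [IM_some] at h1
      simp only [Pi.add_apply, Finset.sum_apply]
      have h2 := CharTwo.add_self_eq_zero (∑ m with m < k, z i (some m))
      linear_combination h1 - h2

/-- The length of a cyclic numbering is the length of an enumeration of the same circuit. -/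
lemma numbering_length {C : G.Subgraph} {m : ℕ} [NeZero m] {x : Fin m → V}
    (hx : IsCyclicNumbering C x) (hc : IsEnum C n c) : m = n := by
  classical
  have h1 : ∀ i : Fin m, ∃ k : Fin n, c k = x i := by
    intro i
    have : x i ∈ C.verts := by rw [← hx.2.1]; exact ⟨i, rfl⟩
    obtain ⟨k, hk, hck⟩ := (hc.verts _).mp this
    exact ⟨⟨k, hk⟩, hck⟩
  have h2 : ∀ k : Fin n, ∃ i : Fin m, x i = c k := by
    intro k
    have : c k ∈ C.verts := (hc.verts _).mpr ⟨k, k.2, rfl⟩
    rw [← hx.2.1] at this
    exact this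
  choose g hg using h1
  choose k hk using h2
  have hbij : Function.Bijective g := by
    constructor
    · intro i j hij
      apply hx.1
      rw [← hg i, ← hg j, hij]
    · intro a
      refine ⟨k a, ?_⟩
      have h3 : c (g (k a)) = c a := by rw [hg, hk]
      exact Fin.ext (hc.inj (g (k a)).2 a.2 h3)
  simpa using Fintype.card_of_bijective hbij

/-- **The combined theorem.** -/
theorem combined {V : Type*} [Finite V] (G : SimpleGraph V) (M C₁ C₂ : G.Subgraph)
    (h : IsPermutationGraph G M C₁ C₂) (hno : ¬ HasFaithfulCircuitCover G (wt M))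
    (n : ℕ) [NeZero n] (x y : Fin n → V) (π : Fin n → Fin n)
    (hx : IsCyclicNumbering C₁ x) (hy : IsCyclicNumbering C₂ y) (hπ : ∀ i, M.Adj (x i) (y (π i))) :
    n % 4 = 1 ∧
      (univ.filter (fun κ : Fin n → Fin 3 =>
        OddClasses κ ∧ Even (mixedInversions π κ).card)).card =
      (univ.filter (fun κ : Fin n → Fin 3 =>
        OddClasses κ ∧ Odd (mixedInversions π κ).card)).card ∧
      4 * (twistedPairs π).card ≡ n * (n - 1) [MOD 32] := by
  classical
  obtain ⟨m, c, a1, a2, a3, a4, a5⟩ := exists_enum h.circuit₁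
  have hc : IsEnum C₁ m c := ⟨a1, a2, a3, a4, a5⟩
  obtain rfl : n = m := numbering_length hx hc
  have hx' := isEnum_of_numbering h.circuit₁ a1 hx
  have hy' := isEnum_of_numbering h.circuit₂ a1 hy
  have hπ' : ∀ i : Fin n, M.Adj ((fun i : ℕ => x (Fin.ofNat n i)) i)
      ((fun i : ℕ => y (Fin.ofNat n i)) (π i)) := by
    intro i
    have e : ∀ k : Fin n, Fin.ofNat n k.val = k := by
      intro k
      apply Fin.ext
      simp [Fin.ofNat, Nat.mod_eq_of_lt k.2]
    simp only [e]
    exact hπ i
  have hinj : Function.Injective π :=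
    map_injective (c' := fun i : ℕ => y (Fin.ofNat n i)) h hx' π hπ'
  obtain ⟨h1, h2, h3⟩ := perm_core π hinj ⟨0, by omega⟩ (hno_of_graph h hno hx' hy' π hπ')
  refine ⟨h1, h2, ?_⟩
  obtain ⟨j, hj⟩ : ∃ j, n = 4 * j + 1 := ⟨n / 4, by omega⟩
  have h4 := (h3 j hj).mul_left' 4
  have e1 : n * (n - 1) = 4 * ((4 * j + 1) * j) := by
    rw [hj, Nat.add_sub_cancel]; ring
  rw [e1]
  exact h4

end Pool.Agent.H5.Goddyn
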